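import Pool.Agent.P8H67.CF.LS

set_option autoImplicit false

/-!
# Project CF (helper14), package LG (helper67): long sums are small for almost all `A`
-/

namespace Pool.Agent.P8H67.CF

open Finset Filter Topology Pool.Agent.P8H14.CF

/-! ### The moduli divisible by a large square -/

lemma card_class {N m : ℕ} (S : Finset ℕ) (hS : S ⊆ Icc 1 N)
    (h : ∀ a ∈ S, ∀ b ∈ S, a ≡ b [MOD m]) : S.card ≤ N / m + 1 := by
  have h1 : S.card ≤ (range (N / m + 1)).card := by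
    refine card_le_card_of_injOn (fun a => a / m) ?_ ?_
    · intro a ha
      have := mem_Icc.1 (hS ha)
      rw [coe_range, Set.mem_Iio]
      exact Nat.lt_succ_of_le (Nat.div_le_div_right this.2)
    · intro a ha b hb hab
      have h2 := h a ha b hb
      have h3 : a % m = b % m := h2
      have h4 : a / m = b / m := hab
      rw [← Nat.div_add_mod a m, ← Nat.div_add_mod b m, h3, h4]
  simpa using h1

lemma card_sq_dvd {N f : ℕ} (hf : 0 < f) :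
    ((Icc 1 N).filter (fun A => f ^ 2 ∣ 4 * A - 1)).card ≤ N / f ^ 2 + 1 := by
  refine card_class _ (filter_subset _ _) fun a ha b hb => ?_
  rw [mem_filter, mem_Icc] at ha hb
  have hcop : Nat.Coprime (f ^ 2) 4 := by
    have ho : Odd (4 * a - 1) := by rw [Nat.odd_iff]; omega
    have h1 : Odd (f ^ 2) := Odd.of_dvd_nat ho ha.2
    exact Nat.Coprime.pow_right 2 ((Nat.coprime_two_right).2 h1)
  have h2 : 4 * a ≡ 4 * b [MOD f ^ 2] := by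
    have h3 : 4 * a ≡ 1 [MOD f ^ 2] := by
      refine ((Nat.modEq_iff_dvd' (by omega)).2 ha.2).symm
    have h4 : 4 * b ≡ 1 [MOD f ^ 2] := by
      refine ((Nat.modEq_iff_dvd' (by omega)).2 hb.2).symm
    exact h3.trans h4.symm
  exact Nat.ModEq.cancel_left_of_coprime hcop h2

open Classical in
lemma card_big (N F : ℕ) (hF : 1 ≤ F) :
    ((((Icc 1 N).filter (fun A => ∃ f, F < f ∧ f ^ 2 ∣ 4 * A - 1)).card : ℕ) : ℝ) ≤
      N / F + 2 * √(N : ℝ) := by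
  have hsub : (Icc 1 N).filter (fun A => ∃ f, F < f ∧ f ^ 2 ∣ 4 * A - 1) ⊆
      (Ioc F (Nat.sqrt (4 * N))).biUnion fun f => (Icc 1 N).filter (fun A => f ^ 2 ∣ 4 * A - 1) := by
    intro A hA
    rw [mem_filter] at hA
    obtain ⟨hA1, f, hf, hd⟩ := hA
    have hA2 := mem_Icc.1 hA1
    rw [mem_biUnion]
    refine ⟨f, ?_, mem_filter.2 ⟨hA1, hd⟩⟩
    rw [mem_Ioc]
    refine ⟨hf, ?_⟩
    rw [Nat.le_sqrt']
    have := Nat.le_of_dvd (by omega) hd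
    omega
  have h1 := (card_le_card hsub).trans card_biUnion_le
  have h2 : ((∑ f ∈ Ioc F (Nat.sqrt (4 * N)),
      ((Icc 1 N).filter (fun A => f ^ 2 ∣ 4 * A - 1)).card : ℕ) : ℝ) ≤
      ∑ f ∈ Ioc F (Nat.sqrt (4 * N)), ((N : ℝ) * ((f : ℝ) ^ 2)⁻¹ + 1) := by
    push_cast
    refine sum_le_sum fun f hf => ?_
    rw [mem_Ioc] at hf
    have h3 := card_sq_dvd (N := N) (f := f) (by omega)
    have h4 : ((N / f ^ 2 : ℕ) : ℝ) ≤ (N : ℝ) * ((f : ℝ) ^ 2)⁻¹ := by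
      refine Nat.cast_div_le.trans (le_of_eq ?_)
      push_cast
      rfl
    have h5 : ((((Icc 1 N).filter (fun A => f ^ 2 ∣ 4 * A - 1)).card : ℕ) : ℝ) ≤
        ((N / f ^ 2 : ℕ) : ℝ) + 1 := by exact_mod_cast h3
    linarith
  have h6 : ((((Icc 1 N).filter (fun A => ∃ f, F < f ∧ f ^ 2 ∣ 4 * A - 1)).card : ℕ) : ℝ) ≤
      ∑ f ∈ Ioc F (Nat.sqrt (4 * N)), ((N : ℝ) * ((f : ℝ) ^ 2)⁻¹ + 1) :=
    le_trans (by exact_mod_cast h1) h2
  refine h6.trans ?_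
  rw [sum_add_distrib, ← mul_sum]
  have hFp : (0 : ℝ) < F := by exact_mod_cast hF
  have h7 : ∑ f ∈ Ioc F (Nat.sqrt (4 * N)), ((f : ℝ) ^ 2)⁻¹ ≤ (F : ℝ)⁻¹ := by
    by_cases h : F ≤ Nat.sqrt (4 * N)
    · have := sum_Ioc_inv_sq_le_sub (α := ℝ) (by omega : F ≠ 0) h
      have h8 : (0 : ℝ) ≤ ((Nat.sqrt (4 * N) : ℕ) : ℝ)⁻¹ := by positivity
      linarith
    · rw [Ioc_eq_empty_of_le (by omega), sum_empty]
      positivity
  have h8 : ∑ f ∈ Ioc F (Nat.sqrt (4 * N)), (1 : ℝ) ≤ 2 * √(N : ℝ) := by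
    rw [sum_const, nsmul_eq_mul, mul_one, Nat.card_Ioc]
    have h9 : ((Nat.sqrt (4 * N) - F : ℕ) : ℝ) ≤ ((Nat.sqrt (4 * N) : ℕ) : ℝ) := by
      exact_mod_cast Nat.sub_le _ _
    have h10 : ((Nat.sqrt (4 * N) : ℕ) : ℝ) ≤ √(((4 * N : ℕ)) : ℝ) := Real.nat_sqrt_le_real_sqrt
    have h11 : √(((4 * N : ℕ)) : ℝ) = 2 * √(N : ℝ) := by
      push_cast
      rw [show (4 : ℝ) = 2 ^ 2 by norm_num, Real.sqrt_mul (by norm_num), Real.sqrt_sq (by norm_num)]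
    linarith
  have h9 : (N : ℝ) * ∑ f ∈ Ioc F (Nat.sqrt (4 * N)), ((f : ℝ) ^ 2)⁻¹ ≤ N / F := by
    rw [div_eq_mul_inv]
    exact mul_le_mul_of_nonneg_left h7 (Nat.cast_nonneg _)
  linarith

/-! ### The sum for a fixed square part -/

/-- coefficients -/
noncomputable def af (L L' f : ℕ) (b : ℕ → ℝ) (l : ℕ) : ℂ :=
  if L < l ∧ l ≤ L' ∧ Nat.Coprime l f then ((b l / l : ℝ) : ℂ) else 0

lemma af_norm {L L' f : ℕ} {b : ℕ → ℝ} (hb : ∀ l, |b l| ≤ l.divisors.card) (l : ℕ) :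
    ‖af L L' f b l‖ ≤ dd l ^ 1 / l := by
  unfold af
  split_ifs
  · rw [Complex.norm_real, Real.norm_eq_abs, abs_div, Nat.abs_cast, pow_one]
    have := hb l
    unfold dd
    gcongr
  · rw [norm_zero]
    have := dd_nonneg l
    positivity

lemma sum_eq_af {A L L' f D : ℕ} {b : ℕ → ℝ} (hf : f ≠ 0) (hD : D ≠ 0) (h : f ^ 2 * D = 4 * A - 1) :
    ((∑ l ∈ Ioc L L', b l * chi A l / l : ℝ) : ℂ) =
      ∑ n ∈ Icc 1 L', af L L' f b n * ((jacobiSym (n : ℤ) D : ℤ) : ℂ) := by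
  have : NeZero D := ⟨hD⟩
  have : NeZero f := ⟨hf⟩
  have : NeZero (f ^ 2) := ⟨pow_ne_zero 2 hf⟩
  push_cast
  have hsub : Ioc L L' ⊆ Icc 1 L' := by
    intro l hl
    rw [mem_Ioc] at hl
    rw [mem_Icc]
    omega
  rw [← sum_subset hsub]
  · refine sum_congr rfl fun l hl => ?_
    rw [mem_Ioc] at hl
    have h1 : chi A l = jacobiSym (l : ℤ) f ^ 2 * jacobiSym (l : ℤ) D := by
      rw [chi, ← h, jacobiSym.mul_right, jacobiSym.pow_right]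
    rw [h1, af]
    by_cases hc : Nat.Coprime l f
    · rw [if_pos ⟨hl.1, hl.2, hc⟩]
      have h2 : jacobiSym (l : ℤ) f ^ 2 = 1 := by
        refine jacobiSym.sq_one ?_
        rw [Int.gcd_natCast_natCast]
        exact hc
      rw [h2]
      push_cast
      ring
    · rw [if_neg fun h => hc h.2.2]
      have h2 : jacobiSym (l : ℤ) f = 0 := by
        rw [jacobiSym.eq_zero_iff_not_coprime, Int.gcd_natCast_natCast]
        exact hc
      rw [h2]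
      push_cast
      ring
  · intro l hl hl'
    rw [mem_Icc] at hl
    rw [mem_Ioc] at hl'
    rw [af, if_neg, zero_mul]
    rintro ⟨h1, h2, -⟩
    exact hl' ⟨h1, h2⟩

/-- the bad moduli for a fixed square part -/
lemma card_Tf {N L L' f : ℕ} (hL : 1 ≤ L) {b : ℕ → ℝ} (hb : ∀ l, |b l| ≤ l.divisors.card)
    {θ : ℝ} (hθ : 0 < θ) :
    ((((Icc 1 (4 * N)).filter (fun D => Squarefree D ∧ Odd D ∧
      θ < ‖∑ n ∈ Icc 1 L', af L L' f b n * ((jacobiSym (n : ℤ) D : ℤ) : ℂ)‖)).card : ℕ) : ℝ) * θ ^ 8 ≤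
      6 * ((L' : ℝ) ^ 4 + ((4 * N : ℕ) : ℝ) ^ 2) * ((1 / (L : ℝ) ^ 4) * HH (L' ^ 4) ^ (2 ^ 14)) := by
  have h1 := eighth (L := L) (M := L') (F := 4 * N) hL (af L L' f b)
    (fun n hn => by rw [af, if_neg]; rintro ⟨h1, -, -⟩; omega)
    (fun n hn => by rw [af, if_neg]; rintro ⟨-, h2, -⟩; omega)
    (fun n _ => af_norm hb n)
    ((Icc 1 (4 * N)).filter (fun D => Squarefree D ∧ Odd D ∧
      θ < ‖∑ n ∈ Icc 1 L', af L L' f b n * ((jacobiSym (n : ℤ) D : ℤ) : ℂ)‖))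
    (filter_subset _ _) (fun D hD => by
      rw [mem_filter] at hD
      exact ⟨hD.2.1, hD.2.2.1⟩)
  refine le_trans ?_ h1
  rw [← nsmul_eq_mul]
  refine card_nsmul_le_sum _ _ _ fun D hD => ?_
  rw [mem_filter] at hD
  exact pow_le_pow_left₀ hθ.le hD.2.2.2.le 8

lemma main_count {N L L' F : ℕ} (hF : 1 ≤ F) (hL : 1 ≤ L) {b : ℕ → ℝ}
    (hb : ∀ l, |b l| ≤ l.divisors.card) {θ X : ℝ} (hθ : 0 < θ)
    (hX : 6 * ((L' : ℝ) ^ 4 + ((4 * N : ℕ) : ℝ) ^ 2) * ((1 / (L : ℝ) ^ 4) * HH (L' ^ 4) ^ (2 ^ 14)) ≤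
      X * θ ^ 8) :
    ((((Icc 1 N).filter (fun A : ℕ => Odd A ∧ θ < |∑ l ∈ Ioc L L', b l * chi A l / l|)).card : ℕ) : ℝ) ≤
      F * X + (N / F + 2 * √(N : ℝ)) := by
  classical
  set Big := (Icc 1 N).filter (fun A => ∃ f, F < f ∧ f ^ 2 ∣ 4 * A - 1) with hBig
  set Tf : ℕ → Finset ℕ := fun f => (Icc 1 (4 * N)).filter (fun D => Squarefree D ∧ Odd D ∧
      θ < ‖∑ n ∈ Icc 1 L', af L L' f b n * ((jacobiSym (n : ℤ) D : ℤ) : ℂ)‖) with hTf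
  set Bf : ℕ → Finset ℕ := fun f => (Icc 1 N).filter (fun A => ∃ D ∈ Tf f, f ^ 2 * D = 4 * A - 1)
    with hBf
  have hsub : (Icc 1 N).filter (fun A : ℕ => Odd A ∧ θ < |∑ l ∈ Ioc L L', b l * chi A l / l|) ⊆
      (Icc 1 F).biUnion Bf ∪ Big := by
    intro A hA
    rw [mem_filter] at hA
    obtain ⟨hA1, _, hA3⟩ := hA
    have hA2 := mem_Icc.1 hA1
    obtain ⟨D, f, hDf, hsq⟩ := Nat.sq_mul_squarefree (4 * A - 1)
    have hf0 : f ≠ 0 := by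
      rintro rfl
      simp at hDf
      omega
    have hD0 : D ≠ 0 := by
      rintro rfl
      simp at hDf
      omega
    rw [mem_union]
    by_cases hfF : f ≤ F
    · left
      rw [mem_biUnion]
      refine ⟨f, mem_Icc.2 ⟨Nat.one_le_iff_ne_zero.2 hf0, hfF⟩, ?_⟩
      rw [hBf, mem_filter]
      refine ⟨hA1, D, ?_, hDf⟩
      rw [hTf, mem_filter, mem_Icc]
      have ho : Odd (4 * A - 1) := by rw [Nat.odd_iff]; omega
      have hDle : D ≤ 4 * A - 1 := by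
        rw [← hDf]
        exact Nat.le_mul_of_pos_left _ (by positivity)
      refine ⟨⟨Nat.one_le_iff_ne_zero.2 hD0, by omega⟩, hsq, Odd.of_dvd_nat ho ⟨f ^ 2, ?_⟩, ?_⟩
      · rw [← hDf, mul_comm]
      · rw [← sum_eq_af hf0 hD0 hDf, Complex.norm_real, Real.norm_eq_abs]
        exact hA3
    · right
      rw [hBig, mem_filter]
      exact ⟨hA1, f, by omega, ⟨D, hDf.symm⟩⟩
  have h1 : ∀ f ∈ Icc 1 F, ((Bf f).card : ℝ) ≤ X := by
    intro f hf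
    rw [mem_Icc] at hf
    have h2 : (Bf f).card ≤ (Tf f).card := by
      refine card_le_card_of_injOn (fun A => (4 * A - 1) / f ^ 2) ?_ ?_
      · intro A hA
        rw [mem_coe, hBf, mem_filter] at hA
        obtain ⟨_, D, hD, hDf⟩ := hA
        have : (4 * A - 1) / f ^ 2 = D := by
          rw [← hDf]
          exact Nat.mul_div_cancel_left D (pow_pos (by omega) 2)
        rw [mem_coe]
        simp only [this]
        exact hD
      · intro A hA A' hA' hAA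
        rw [mem_coe, hBf, mem_filter] at hA hA'
        obtain ⟨hA1, D, hD, hDf⟩ := hA
        obtain ⟨hA1', D', hD', hDf'⟩ := hA'
        have e1 : (4 * A - 1) / f ^ 2 = D := by
          rw [← hDf]
          exact Nat.mul_div_cancel_left D (pow_pos (by omega) 2)
        have e2 : (4 * A' - 1) / f ^ 2 = D' := by
          rw [← hDf']
          exact Nat.mul_div_cancel_left D' (pow_pos (by omega) 2)
        simp only [e1, e2] at hAA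
        rw [mem_Icc] at hA1 hA1'
        rw [hAA, hDf'] at hDf
        omega
    have h3 := card_Tf (N := N) (L' := L') (f := f) hL hb hθ
    have h4 : (((Tf f).card : ℕ) : ℝ) * θ ^ 8 ≤ X * θ ^ 8 := h3.trans hX
    have h5 : (((Tf f).card : ℕ) : ℝ) ≤ X := le_of_mul_le_mul_right h4 (by positivity)
    exact le_trans (by exact_mod_cast h2) h5
  have h6 : ((((Icc 1 F).biUnion Bf).card : ℕ) : ℝ) ≤ F * X := by
    calc ((((Icc 1 F).biUnion Bf).card : ℕ) : ℝ) ≤ ∑ f ∈ Icc 1 F, ((Bf f).card : ℝ) := by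
          exact_mod_cast card_biUnion_le
      _ ≤ ∑ f ∈ Icc 1 F, X := sum_le_sum h1
      _ = F * X := by simp
  have h7 := card_big N F hF
  have h8 : ((((Icc 1 N).filter (fun A : ℕ => Odd A ∧
      θ < |∑ l ∈ Ioc L L', b l * chi A l / l|)).card : ℕ) : ℝ) ≤
      ((((Icc 1 F).biUnion Bf).card : ℕ) : ℝ) + ((Big.card : ℕ) : ℝ) := by
    exact_mod_cast (card_le_card hsub).trans (card_union_le _ _)
  linarith

/-! ### Numerical part -/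

lemma ev_log (c : ℝ) (K : ℕ) {ε : ℝ} (hε : 0 < ε) :
    ∀ᶠ N : ℕ in atTop, c * Real.log N ^ K ≤ (N : ℝ) ^ ε := by
  have h1 : (fun x : ℝ => Real.log x ^ (K : ℝ)) =o[atTop] fun x => x ^ ε :=
    isLittleO_log_rpow_rpow_atTop (K : ℝ) hε
  have h2 := (h1.comp_tendsto tendsto_natCast_atTop_atTop).bound
    (show (0 : ℝ) < 1 / (|c| + 1) by positivity)
  filter_upwards [h2, eventually_ge_atTop 1] with N hN hN1
  simp only [Function.comp, Real.rpow_natCast, Real.norm_eq_abs] at hN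
  have h3 : (0 : ℝ) ≤ Real.log N := Real.log_natCast_nonneg N
  have h5 : (0 : ℝ) ≤ Real.log N ^ K := pow_nonneg h3 K
  have h6 : (0 : ℝ) ≤ (N : ℝ) ^ ε := Real.rpow_nonneg (Nat.cast_nonneg N) ε
  rw [abs_of_nonneg h5, abs_of_nonneg h6] at hN
  have h4 : c * Real.log N ^ K ≤ (|c| + 1) * Real.log N ^ K :=
    mul_le_mul_of_nonneg_right (by linarith [le_abs_self c]) h5
  refine h4.trans ?_
  rw [div_mul_eq_mul_div, one_mul, le_div_iff₀ (by positivity)] at hN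
  linarith

/-- LG -/
theorem lg : S_LG := by
  intro B
  have hev : ∀ᶠ N : ℕ in atTop,
      1632 * (17 : ℝ) ^ (2 ^ 14) * Real.log N ^ (8 * B + 2 ^ 14) ≤ (N : ℝ) ^ (1 / 10 : ℝ) ∧
      1 ≤ Real.log N ∧ 5 ≤ (N : ℝ) ^ (9 / 1000 : ℝ) := by
    have h1 := ev_log (1632 * (17 : ℝ) ^ (2 ^ 14)) (8 * B + 2 ^ 14) (ε := 1 / 10) (by norm_num)
    have h2 : ∀ᶠ N : ℕ in atTop, 1 ≤ Real.log N :=
      (Real.tendsto_log_atTop.comp tendsto_natCast_atTop_atTop).eventually_ge_atTop 1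
    have h3 : ∀ᶠ N : ℕ in atTop, (5 : ℝ) ≤ (N : ℝ) ^ (9 / 1000 : ℝ) :=
      ((tendsto_rpow_atTop (by norm_num : (0 : ℝ) < 9 / 1000)).comp
        tendsto_natCast_atTop_atTop).eventually_ge_atTop 5
    filter_upwards [h1, h2, h3] with N a b c using ⟨a, b, c⟩
  obtain ⟨N₀, hN₀⟩ := eventually_atTop.1 hev
  refine ⟨max N₀ 1, fun N L L' hN hNL hLL hLN b hb => ?_⟩
  obtain ⟨hP, hlog, h5⟩ := hN₀ N ((le_max_left _ _).trans hN)
  have hN1 : 1 ≤ N := (le_max_right _ _).trans hN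
  have hx : (0 : ℝ) < N := by exact_mod_cast hN1
  have hx1 : (1 : ℝ) ≤ N := by exact_mod_cast hN1
  have hL : 1 ≤ L := by
    rcases Nat.eq_zero_or_pos L with h | h
    · subst h
      simp at hNL
      omega
    · exact h
  have hLp : (0 : ℝ) < L := by exact_mod_cast hL
  set F : ℕ := ⌊(N : ℝ) ^ (1 / 100 : ℝ)⌋₊ with hF
  have hN100 : (1 : ℝ) ≤ (N : ℝ) ^ (1 / 100 : ℝ) := Real.one_le_rpow hx1 (by norm_num)
  have hF1 : 1 ≤ F := Nat.le_floor (by exact_mod_cast hN100)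
  have hFle : (F : ℝ) ≤ (N : ℝ) ^ (1 / 100 : ℝ) := Nat.floor_le (by positivity)
  have hFge : (N : ℝ) ^ (1 / 100 : ℝ) / 2 ≤ F := by
    have h1 := Nat.lt_floor_add_one ((N : ℝ) ^ (1 / 100 : ℝ))
    have h2 : (1 : ℝ) ≤ F := by exact_mod_cast hF1
    rw [← hF] at h1
    linarith
  set θ : ℝ := 1 / Real.log N ^ B with hθ
  have hθ0 : 0 < θ := by positivity
  set X : ℝ := (N : ℝ) ^ (2 / 3 + 1 / 10 : ℝ) with hX
  have hkey : 6 * ((L' : ℝ) ^ 4 + ((4 * N : ℕ) : ℝ) ^ 2) *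
      ((1 / (L : ℝ) ^ 4) * HH (L' ^ 4) ^ (2 ^ 14)) ≤ X * θ ^ 8 := by
    have hH : HH (L' ^ 4) ≤ 17 * Real.log N := by
      refine (HH_le _).trans ?_
      by_cases hL0 : L' = 0
      · subst hL0
        simp
        linarith
      · have h1 : Real.log ((L' ^ 4 : ℕ) : ℝ) ≤ Real.log ((N : ℝ) ^ 16) := by
          refine Real.log_le_log (by positivity) ?_
          have : L' ^ 4 ≤ (N ^ 4) ^ 4 := Nat.pow_le_pow_left hLN 4
          calc ((L' ^ 4 : ℕ) : ℝ) ≤ (((N ^ 4) ^ 4 : ℕ) : ℝ) := by exact_mod_cast this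
            _ = (N : ℝ) ^ 16 := by push_cast; ring
        rw [Real.log_pow] at h1
        push_cast at h1 ⊢
        linarith
    have h1 : (L' : ℝ) ^ 4 ≤ 16 * (L : ℝ) ^ 4 := by
      have : (L' : ℝ) ≤ 2 * L := by exact_mod_cast hLL
      calc (L' : ℝ) ^ 4 ≤ (2 * (L : ℝ)) ^ 4 := by gcongr
        _ = 16 * (L : ℝ) ^ 4 := by ring
    have hN13 : (N : ℝ) ^ (1 / 3 : ℝ) ≤ 2 * L := by
      have h2 : (N : ℝ) ≤ (2 * (L : ℝ)) ^ 3 := by
        have : (N : ℝ) ≤ 8 * (L : ℝ) ^ 3 := by exact_mod_cast hNL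
        calc (N : ℝ) ≤ 8 * (L : ℝ) ^ 3 := this
          _ = (2 * (L : ℝ)) ^ 3 := by ring
      calc (N : ℝ) ^ (1 / 3 : ℝ) ≤ ((2 * (L : ℝ)) ^ 3) ^ (1 / 3 : ℝ) :=
            Real.rpow_le_rpow hx.le h2 (by norm_num)
        _ = 2 * L := by
            rw [← Real.rpow_natCast, ← Real.rpow_mul (by positivity)]
            norm_num
    have h2 : ((4 * N : ℕ) : ℝ) ^ 2 * (1 / (L : ℝ) ^ 4) ≤ 256 * (N : ℝ) ^ (2 / 3 : ℝ) := by
      have h3 : (N : ℝ) ^ (4 / 3 : ℝ) ≤ 16 * (L : ℝ) ^ 4 := by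
        calc (N : ℝ) ^ (4 / 3 : ℝ) = ((N : ℝ) ^ (1 / 3 : ℝ)) ^ (4 : ℕ) := by
              rw [← Real.rpow_natCast, ← Real.rpow_mul hx.le]
              norm_num
          _ ≤ (2 * (L : ℝ)) ^ 4 := by gcongr
          _ = 16 * (L : ℝ) ^ 4 := by ring
      rw [mul_one_div, div_le_iff₀ (by positivity)]
      calc ((4 * N : ℕ) : ℝ) ^ 2 = 16 * ((N : ℝ) ^ (2 / 3 : ℝ) * (N : ℝ) ^ (4 / 3 : ℝ)) := by
            rw [← Real.rpow_add hx]
            norm_num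
            ring
        _ ≤ 16 * ((N : ℝ) ^ (2 / 3 : ℝ) * (16 * (L : ℝ) ^ 4)) := by gcongr
        _ = 256 * (N : ℝ) ^ (2 / 3 : ℝ) * (L : ℝ) ^ 4 := by ring
    have h3 : 6 * ((L' : ℝ) ^ 4 + ((4 * N : ℕ) : ℝ) ^ 2) * (1 / (L : ℝ) ^ 4) ≤
        1632 * (N : ℝ) ^ (2 / 3 : ℝ) := by
      have h4 : (L' : ℝ) ^ 4 * (1 / (L : ℝ) ^ 4) ≤ 16 := by
        rw [mul_one_div, div_le_iff₀ (by positivity)]
        exact h1
      have h5 : (1 : ℝ) ≤ (N : ℝ) ^ (2 / 3 : ℝ) := Real.one_le_rpow hx1 (by norm_num)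
      calc 6 * ((L' : ℝ) ^ 4 + ((4 * N : ℕ) : ℝ) ^ 2) * (1 / (L : ℝ) ^ 4)
          = 6 * ((L' : ℝ) ^ 4 * (1 / (L : ℝ) ^ 4) + ((4 * N : ℕ) : ℝ) ^ 2 * (1 / (L : ℝ) ^ 4)) := by
            ring
        _ ≤ 6 * (16 * (N : ℝ) ^ (2 / 3 : ℝ) + 256 * (N : ℝ) ^ (2 / 3 : ℝ)) := by
            have h6 : (L' : ℝ) ^ 4 * (1 / (L : ℝ) ^ 4) ≤ 16 * (N : ℝ) ^ (2 / 3 : ℝ) := by linarith
            linarith
        _ = 1632 * (N : ℝ) ^ (2 / 3 : ℝ) := by ring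
    have hθ8 : θ ^ 8 = 1 / Real.log N ^ (8 * B) := by
      rw [hθ, div_pow, one_pow, ← pow_mul, mul_comm B 8]
    rw [hθ8, mul_one_div, le_div_iff₀ (by positivity)]
    have hH0 := HH_nonneg (L' ^ 4)
    calc 6 * ((L' : ℝ) ^ 4 + ((4 * N : ℕ) : ℝ) ^ 2) *
          ((1 / (L : ℝ) ^ 4) * HH (L' ^ 4) ^ (2 ^ 14)) * Real.log N ^ (8 * B)
        = (6 * ((L' : ℝ) ^ 4 + ((4 * N : ℕ) : ℝ) ^ 2) * (1 / (L : ℝ) ^ 4)) *
          HH (L' ^ 4) ^ (2 ^ 14) * Real.log N ^ (8 * B) := by ring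
      _ ≤ (1632 * (N : ℝ) ^ (2 / 3 : ℝ)) * (17 * Real.log N) ^ (2 ^ 14) * Real.log N ^ (8 * B) := by
          gcongr
      _ = (N : ℝ) ^ (2 / 3 : ℝ) *
          (1632 * (17 : ℝ) ^ (2 ^ 14) * Real.log N ^ (8 * B + 2 ^ 14)) := by
          rw [mul_pow, pow_add]
          ring
      _ ≤ (N : ℝ) ^ (2 / 3 : ℝ) * (N : ℝ) ^ (1 / 10 : ℝ) := by gcongr
      _ = X := by rw [← Real.rpow_add hx]
  refine (main_count hF1 hL hb hθ0 hkey).trans ?_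
  have h1 : (F : ℝ) * X ≤ (N : ℝ) ^ (99 / 100 : ℝ) := by
    calc (F : ℝ) * X ≤ (N : ℝ) ^ (1 / 100 : ℝ) * (N : ℝ) ^ (2 / 3 + 1 / 10 : ℝ) := by gcongr
      _ = (N : ℝ) ^ (1 / 100 + (2 / 3 + 1 / 10) : ℝ) := by rw [← Real.rpow_add hx]
      _ ≤ (N : ℝ) ^ (99 / 100 : ℝ) := Real.rpow_le_rpow_of_exponent_le hx1 (by norm_num)
  have h2 : (N : ℝ) / F ≤ 2 * (N : ℝ) ^ (99 / 100 : ℝ) := by
    have hFp : (0 : ℝ) < F := by exact_mod_cast hF1
    rw [div_le_iff₀ hFp]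
    calc (N : ℝ) = 2 * (N : ℝ) ^ (99 / 100 : ℝ) * ((N : ℝ) ^ (1 / 100 : ℝ) / 2) := by
          rw [show 2 * (N : ℝ) ^ (99 / 100 : ℝ) * ((N : ℝ) ^ (1 / 100 : ℝ) / 2) =
            (N : ℝ) ^ (99 / 100 : ℝ) * (N : ℝ) ^ (1 / 100 : ℝ) by ring, ← Real.rpow_add hx]
          norm_num
      _ ≤ 2 * (N : ℝ) ^ (99 / 100 : ℝ) * F := by gcongr
  have h3 : 2 * √(N : ℝ) ≤ 2 * (N : ℝ) ^ (99 / 100 : ℝ) := by
    rw [Real.sqrt_eq_rpow]
    have := Real.rpow_le_rpow_of_exponent_le hx1 (by norm_num : (1 / 2 : ℝ) ≤ 99 / 100)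
    linarith
  calc (F : ℝ) * X + (N / F + 2 * √(N : ℝ)) ≤ 5 * (N : ℝ) ^ (99 / 100 : ℝ) := by linarith
    _ ≤ (N : ℝ) ^ (9 / 1000 : ℝ) * (N : ℝ) ^ (99 / 100 : ℝ) := by gcongr
    _ = (N : ℝ) ^ (1 - 1 / 1000 : ℝ) := by rw [← Real.rpow_add hx]; norm_num

end Pool.Agent.P8H67.CF
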