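import Mathlib

set_option autoImplicit false

/-!
# Project CF (helper14), packages SM, LG, TAIL (helper67): moments of the divisor function
-/

namespace Pool.Agent.P8H67.CF

open Finset

/-- number of divisors, real valued -/
noncomputable def dd (n : ℕ) : ℝ := (n.divisors.card : ℝ)

lemma dd_nonneg (n : ℕ) : 0 ≤ dd n := Nat.cast_nonneg _

lemma one_le_dd {n : ℕ} (hn : 1 ≤ n) : 1 ≤ dd n := by
  have h : 0 < n.divisors.card := card_pos.2 ⟨1, Nat.one_mem_divisors.2 (by omega)⟩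
  unfold dd
  exact_mod_cast h

lemma dd_mul_le (a b : ℕ) : dd (a * b) ≤ dd a * dd b := by
  unfold dd
  rw [Nat.divisors_mul]
  exact_mod_cast Finset.card_mul_le

lemma dd_le_of_dvd {a b : ℕ} (hb : b ≠ 0) (h : a ∣ b) : dd a ≤ dd b := by
  unfold dd
  exact_mod_cast card_le_card (Nat.divisors_subset_of_dvd hb h)

lemma dd_pow_le (a k : ℕ) : dd (a ^ k) ≤ dd a ^ k := by
  induction k with
  | zero => simp [dd]
  | succ k ih =>
    rw [pow_succ, pow_succ]
    exact (dd_mul_le _ _).trans (mul_le_mul_of_nonneg_right ih (dd_nonneg _))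

/-- the harmonic sum -/
noncomputable def HH (x : ℕ) : ℝ := ∑ n ∈ Icc 1 x, (1 : ℝ) / n

lemma HH_nonneg (x : ℕ) : 0 ≤ HH x := sum_nonneg fun n _ => by positivity

lemma HH_le (x : ℕ) : HH x ≤ 1 + Real.log x := by
  have h := harmonic_le_one_add_log x
  have h2 : ((harmonic x : ℚ) : ℝ) = HH x := by
    rw [harmonic_eq_sum_Icc, HH]
    push_cast
    simp
  rwa [h2] at h

/-- sums over factorisations -/
lemma sum_anti_le (x : ℕ) (f : ℕ → ℕ → ℝ) (hf : ∀ a b, 0 ≤ f a b) :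
    ∑ n ∈ Icc 1 x, ∑ p ∈ n.divisorsAntidiagonal, f p.1 p.2 ≤
      ∑ a ∈ Icc 1 x, ∑ b ∈ Icc 1 x, f a b := by
  rw [← sum_product', sum_sigma']
  refine (sum_le_sum_of_subset_of_nonneg (s := ((Icc 1 x).sigma fun n => n.divisorsAntidiagonal).image
    fun s => s.2) ?_ fun p _ _ => hf p.1 p.2).trans' (le_of_eq ?_)
  · intro p hp
    rw [mem_image] at hp
    obtain ⟨⟨n, q⟩, hs, rfl⟩ := hp
    rw [mem_sigma, mem_Icc] at hs
    obtain ⟨⟨h1, h2⟩, h3⟩ := hs
    have h4 := Nat.mem_divisorsAntidiagonal.1 h3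
    simp only at h4 h1 h2 h3 ⊢
    have h5 : 0 < q.1 := Nat.pos_of_ne_zero fun h => by
      apply h4.2; rw [← h4.1, h, zero_mul]
    have h6 : 0 < q.2 := Nat.pos_of_ne_zero fun h => by
      apply h4.2; rw [← h4.1, h, mul_zero]
    have h7 : q.1 ≤ q.1 * q.2 := Nat.le_mul_of_pos_right _ h6
    have h8 : q.2 ≤ q.1 * q.2 := Nat.le_mul_of_pos_left _ h5
    rw [mem_product, mem_Icc, mem_Icc]
    omega
  · symm
    rw [sum_image]
    rintro ⟨n, q⟩ hs ⟨n', q'⟩ hs' h
    simp only at h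
    subst h
    rw [mem_coe, mem_sigma] at hs hs'
    have h1 := (Nat.mem_divisorsAntidiagonal.1 hs.2).1
    have h2 := (Nat.mem_divisorsAntidiagonal.1 hs'.2).1
    simp only at h1 h2
    rw [← h1, ← h2]

lemma moment_step (x k : ℕ) : ∑ n ∈ Icc 1 x, dd n ^ (k + 1) / n ≤
    (∑ n ∈ Icc 1 x, dd n ^ k / n) ^ 2 := by
  calc ∑ n ∈ Icc 1 x, dd n ^ (k + 1) / n
      = ∑ n ∈ Icc 1 x, ∑ p ∈ n.divisorsAntidiagonal, dd (p.1 * p.2) ^ k / ((p.1 * p.2 : ℕ) : ℝ) := by
        refine sum_congr rfl fun n _ => ?_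
        rw [sum_congr rfl fun p hp => by rw [(Nat.mem_divisorsAntidiagonal.1 hp).1]]
        rw [sum_const, nsmul_eq_mul, ← Nat.map_div_right_divisors, card_map]
        rw [pow_succ]
        unfold dd
        ring
    _ ≤ ∑ n ∈ Icc 1 x, ∑ p ∈ n.divisorsAntidiagonal, (dd p.1 ^ k / p.1) * (dd p.2 ^ k / p.2) := by
        refine sum_le_sum fun n _ => sum_le_sum fun p _ => ?_
        rw [div_mul_div_comm, ← mul_pow]
        push_cast
        gcongr
        · exact dd_nonneg _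
        · exact dd_mul_le _ _
    _ ≤ ∑ a ∈ Icc 1 x, ∑ b ∈ Icc 1 x, (dd a ^ k / a) * (dd b ^ k / b) := by
        refine sum_anti_le x (fun a b => (dd a ^ k / a) * (dd b ^ k / b)) fun a b => ?_
        have := dd_nonneg a
        have := dd_nonneg b
        positivity
    _ = _ := by
        rw [sq, sum_mul_sum]

/-- all moments of the divisor function -/
theorem moment_le (x k : ℕ) : ∑ n ∈ Icc 1 x, dd n ^ k / n ≤ HH x ^ (2 ^ k) := by
  induction k with
  | zero => simp [HH]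
  | succ k ih =>
    refine (moment_step x k).trans ?_
    rw [pow_succ 2 k, pow_mul]
    refine pow_le_pow_left₀ (sum_nonneg fun n _ => ?_) ih 2
    have := dd_nonneg n
    positivity

end Pool.Agent.P8H67.CF
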