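import Pool.Agent.P8H67.CF.Jac
import Pool.Agent.P8H67.CF.Dv

set_option autoImplicit false

/-!
# Project CF (helper14), package SM (helper67): the mean square over odd `A` of short sums
-/

namespace Pool.Agent.P8H67.CF

open Finset Pool.Agent.P8H14.CF

/-- sums over the pairs with a given product -/
noncomputable def gg (Y Z n : ℕ) : ℝ :=
  ∑ p ∈ (Ioc Y Z ×ˢ Ioc Y Z).filter (fun p => p.1 * p.2 = n), dd p.1 * dd p.2 / ((p.1 * p.2 : ℕ) : ℝ)

lemma gg_le (Y Z : ℕ) {n : ℕ} (hn : n ≠ 0) : gg Y Z n ≤ dd n ^ 3 / n := by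
  have h1 : (Ioc Y Z ×ˢ Ioc Y Z).filter (fun p => p.1 * p.2 = n) ⊆ n.divisorsAntidiagonal := by
    intro p hp
    rw [mem_filter] at hp
    exact Nat.mem_divisorsAntidiagonal.2 ⟨hp.2, hn⟩
  calc gg Y Z n ≤ ∑ p ∈ (Ioc Y Z ×ˢ Ioc Y Z).filter (fun p => p.1 * p.2 = n), dd n ^ 2 / n := by
        refine sum_le_sum fun p hp => ?_
        rw [mem_filter] at hp
        rw [hp.2, sq]
        have h2 : dd p.1 ≤ dd n := dd_le_of_dvd hn ⟨p.2, hp.2.symm⟩
        have h3 : dd p.2 ≤ dd n := dd_le_of_dvd hn ⟨p.1, by rw [mul_comm]; exact hp.2.symm⟩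
        have := dd_nonneg p.1
        have := dd_nonneg p.2
        have := dd_nonneg n
        gcongr
    _ = ((Ioc Y Z ×ˢ Ioc Y Z).filter (fun p => p.1 * p.2 = n)).card * (dd n ^ 2 / n) := by
        rw [sum_const, nsmul_eq_mul]
    _ ≤ dd n * (dd n ^ 2 / n) := by
        refine mul_le_mul_of_nonneg_right ?_ (by positivity)
        have h4 := card_le_card h1
        rw [← Nat.map_div_right_divisors, card_map] at h4
        unfold dd
        exact_mod_cast h4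
    _ = dd n ^ 3 / n := by ring

lemma gg_zero {Y Z n : ℕ} (hn : n ≤ Y ^ 2) : gg Y Z n = 0 := by
  unfold gg
  rw [filter_eq_empty_iff.2, sum_empty]
  intro p hp h
  rw [mem_product, mem_Ioc, mem_Ioc] at hp
  have : Y * Y < p.1 * p.2 := Nat.mul_lt_mul'' hp.1.1 hp.2.1
  nlinarith

lemma gg_sq {Y Z m : ℕ} (hY : 1 ≤ Y) (hm : 1 ≤ m) : gg Y Z (m ^ 2) ≤ (1 / Y) * (dd m ^ 6 / m) := by
  have hY' : (0 : ℝ) < Y := by exact_mod_cast hY
  have hm' : (0 : ℝ) < m := by exact_mod_cast hm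
  by_cases h : m ≤ Y
  · rw [gg_zero (Nat.pow_le_pow_left h 2)]
    have := dd_nonneg m
    positivity
  · push Not at h
    have h1 : (Y : ℝ) ≤ m := by exact_mod_cast h.le
    refine (gg_le Y Z (pow_ne_zero 2 (by omega))).trans ?_
    calc dd (m ^ 2) ^ 3 / ((m ^ 2 : ℕ) : ℝ) ≤ (dd m ^ 2) ^ 3 / ((m ^ 2 : ℕ) : ℝ) := by
          have := dd_nonneg (m ^ 2)
          have := dd_pow_le m 2
          gcongr
      _ = 1 / m * (dd m ^ 6 / m) := by
          push_cast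
          field_simp
      _ ≤ 1 / Y * (dd m ^ 6 / m) := by
          have := dd_nonneg m
          gcongr

lemma gg_two_sq {Y Z m : ℕ} (hY : 1 ≤ Y) (hm : 1 ≤ m) :
    gg Y Z (2 * m ^ 2) ≤ (8 / Y) * (dd m ^ 6 / m) := by
  have hY' : (0 : ℝ) < Y := by exact_mod_cast hY
  have hm' : (0 : ℝ) < m := by exact_mod_cast hm
  by_cases h : 2 * m < Y
  · rw [gg_zero (by nlinarith)]
    have := dd_nonneg m
    positivity
  · push Not at h
    have h1 : (Y : ℝ) ≤ 2 * m := by exact_mod_cast h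
    have h2 : dd 2 = 2 := by
      have : (2 : ℕ).divisors.card = 2 := by decide
      unfold dd
      rw [this]
      norm_num
    refine (gg_le Y Z (mul_ne_zero two_ne_zero (pow_ne_zero 2 (by omega)))).trans ?_
    have h3 : dd (2 * m ^ 2) ≤ 2 * dd m ^ 2 := by
      refine (dd_mul_le _ _).trans ?_
      rw [h2]
      exact mul_le_mul_of_nonneg_left (dd_pow_le m 2) (by norm_num)
    calc dd (2 * m ^ 2) ^ 3 / ((2 * m ^ 2 : ℕ) : ℝ) ≤ (2 * dd m ^ 2) ^ 3 / ((2 * m ^ 2 : ℕ) : ℝ) := by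
          have := dd_nonneg (2 * m ^ 2)
          gcongr
      _ = 4 / m * (dd m ^ 6 / m) := by
          push_cast
          field_simp
          ring
      _ ≤ 8 / Y * (dd m ^ 6 / m) := by
          have h4 := dd_nonneg m
          refine mul_le_mul_of_nonneg_right ?_ (by positivity)
          rw [div_le_div_iff₀ hm' hY']
          linarith

open Classical in
lemma good_sum {Y Z : ℕ} (hY : 1 ≤ Y) :
    ∑ p ∈ Ioc Y Z ×ˢ Ioc Y Z, (if Gd (p.1 * p.2) then dd p.1 * dd p.2 / ((p.1 * p.2 : ℕ) : ℝ) else 0) ≤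
      9 / Y * HH Z ^ 64 := by
  have h1 : ∀ p ∈ Ioc Y Z ×ˢ Ioc Y Z,
      (if Gd (p.1 * p.2) then dd p.1 * dd p.2 / ((p.1 * p.2 : ℕ) : ℝ) else 0) ≤
      ∑ m ∈ Icc 1 Z, ((if p.1 * p.2 = m ^ 2 then dd p.1 * dd p.2 / ((p.1 * p.2 : ℕ) : ℝ) else 0) +
        (if p.1 * p.2 = 2 * m ^ 2 then dd p.1 * dd p.2 / ((p.1 * p.2 : ℕ) : ℝ) else 0)) := by
    intro p hp
    rw [mem_product, mem_Ioc, mem_Ioc] at hp
    have hF : 0 ≤ dd p.1 * dd p.2 / ((p.1 * p.2 : ℕ) : ℝ) := by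
      have := dd_nonneg p.1
      have := dd_nonneg p.2
      positivity
    have hnn : ∀ m ∈ Icc 1 Z, 0 ≤
        ((if p.1 * p.2 = m ^ 2 then dd p.1 * dd p.2 / ((p.1 * p.2 : ℕ) : ℝ) else 0) +
        (if p.1 * p.2 = 2 * m ^ 2 then dd p.1 * dd p.2 / ((p.1 * p.2 : ℕ) : ℝ) else 0)) := by
      intro m _
      split_ifs <;> linarith
    split_ifs with hG
    · obtain ⟨m, hm⟩ := hG
      have hpos : 0 < p.1 * p.2 := Nat.mul_pos (by omega) (by omega)
      have hle : p.1 * p.2 ≤ Z * Z := Nat.mul_le_mul hp.1.2 hp.2.2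
      have hm1 : 1 ≤ m := by
        rcases Nat.eq_zero_or_pos m with h | h
        · subst h
          rcases hm with hm | hm <;> simp at hm <;> omega
        · exact h
      have hmZ : m ≤ Z := by
        by_contra hc
        push Not at hc
        have : Z * Z < m * m := Nat.mul_lt_mul'' hc hc
        rcases hm with hm | hm <;> nlinarith
      refine le_trans ?_ (single_le_sum hnn (mem_Icc.2 ⟨hm1, hmZ⟩))
      rcases hm with hm | hm
      · rw [if_pos hm]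
        split_ifs <;> linarith
      · rw [if_pos hm]
        split_ifs <;> linarith
    · exact sum_nonneg hnn
  refine (sum_le_sum h1).trans ?_
  rw [sum_comm]
  have h2 : ∀ m ∈ Icc 1 Z, ∑ p ∈ Ioc Y Z ×ˢ Ioc Y Z,
      ((if p.1 * p.2 = m ^ 2 then dd p.1 * dd p.2 / ((p.1 * p.2 : ℕ) : ℝ) else 0) +
        (if p.1 * p.2 = 2 * m ^ 2 then dd p.1 * dd p.2 / ((p.1 * p.2 : ℕ) : ℝ) else 0)) ≤
      9 / Y * (dd m ^ 6 / m) := by
    intro m hm
    rw [mem_Icc] at hm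
    rw [sum_add_distrib, ← sum_filter, ← sum_filter]
    have h3 := gg_sq (Z := Z) hY hm.1
    have h4 := gg_two_sq (Z := Z) hY hm.1
    unfold gg at h3 h4
    refine (add_le_add h3 h4).trans (le_of_eq ?_)
    ring
  refine (sum_le_sum h2).trans ?_
  rw [← mul_sum]
  exact mul_le_mul_of_nonneg_left (moment_le Z 6) (by positivity)

lemma sum_dd_le (Y Z : ℕ) : ∑ l ∈ Ioc Y Z, dd l ≤ Z * HH Z ^ 2 := by
  calc ∑ l ∈ Ioc Y Z, dd l ≤ ∑ l ∈ Icc 1 Z, dd l := by
        refine sum_le_sum_of_subset_of_nonneg ?_ fun l _ _ => dd_nonneg l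
        intro l hl
        rw [mem_Ioc] at hl
        rw [mem_Icc]
        omega
    _ ≤ ∑ l ∈ Icc 1 Z, Z * (dd l ^ 1 / l) := by
        refine sum_le_sum fun l hl => ?_
        rw [mem_Icc] at hl
        have h1 : (0 : ℝ) < l := by exact_mod_cast hl.1
        have h2 : (l : ℝ) ≤ Z := by exact_mod_cast hl.2
        have h3 := dd_nonneg l
        rw [pow_one, mul_div_assoc', le_div_iff₀ h1, mul_comm]
        exact mul_le_mul_of_nonneg_right h2 h3
    _ ≤ Z * HH Z ^ 2 := by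
        rw [← mul_sum]
        exact mul_le_mul_of_nonneg_left (by simpa using moment_le Z 1) (Nat.cast_nonneg _)

/-- the mean square -/
theorem sm_main (N Y Z : ℕ) (hY : 1 ≤ Y) (b : ℕ → ℝ) (hb : ∀ l, |b l| ≤ l.divisors.card) :
    ∑ A ∈ (Icc 1 N).filter Odd, (∑ l ∈ Ioc Y Z, b l * chi A l / l) ^ 2 ≤
      (Z * HH Z ^ 2) ^ 2 + N * (9 / Y * HH Z ^ 64) := by
  classical
  have h1 : ∀ A : ℕ, (∑ l ∈ Ioc Y Z, b l * chi A l / l) ^ 2 =
      ∑ p ∈ Ioc Y Z ×ˢ Ioc Y Z, (b p.1 / p.1) * (b p.2 / p.2) * (chi A (p.1 * p.2) : ℝ) := by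
    intro A
    rw [sq, sum_mul_sum, sum_product]
    refine sum_congr rfl fun x _ => sum_congr rfl fun y _ => ?_
    rw [chi_mul]
    push_cast
    ring
  rw [sum_congr rfl fun A _ => h1 A, sum_comm]
  have h2 : ∀ p ∈ Ioc Y Z ×ˢ Ioc Y Z,
      ∑ A ∈ (Icc 1 N).filter Odd, (b p.1 / p.1) * (b p.2 / p.2) * (chi A (p.1 * p.2) : ℝ) ≤
      dd p.1 * dd p.2 +
        N * (if Gd (p.1 * p.2) then dd p.1 * dd p.2 / ((p.1 * p.2 : ℕ) : ℝ) else 0) := by
    intro p hp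
    rw [mem_product, mem_Ioc, mem_Ioc] at hp
    have hp1 : (0 : ℝ) < p.1 := by exact_mod_cast (by omega : 0 < p.1)
    have hp2 : (0 : ℝ) < p.2 := by exact_mod_cast (by omega : 0 < p.2)
    have hn1 : 1 ≤ p.1 * p.2 := Nat.mul_pos (by omega) (by omega)
    rw [← mul_sum]
    have h3 : |(b p.1 / p.1) * (b p.2 / p.2)| ≤ dd p.1 * dd p.2 / ((p.1 * p.2 : ℕ) : ℝ) := by
      rw [div_mul_div_comm, abs_div, abs_mul, abs_of_pos (mul_pos hp1 hp2)]
      push_cast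
      have := hb p.1
      have := hb p.2
      unfold dd
      gcongr
    have h4 : (∑ A ∈ (Icc 1 N).filter Odd, (chi A (p.1 * p.2) : ℝ)) =
        ((∑ A ∈ (Icc 1 N).filter Odd, chi A (p.1 * p.2) : ℤ) : ℝ) := by push_cast; rfl
    rw [h4]
    refine (le_abs_self _).trans ?_
    rw [abs_mul]
    have hd : 0 ≤ dd p.1 * dd p.2 := mul_nonneg (dd_nonneg _) (dd_nonneg _)
    have hc : (0 : ℝ) < ((p.1 * p.2 : ℕ) : ℝ) := by exact_mod_cast hn1
    split_ifs with hG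
    · have h5 : |((∑ A ∈ (Icc 1 N).filter Odd, chi A (p.1 * p.2) : ℤ) : ℝ)| ≤ N := by
        have := abs_sum_chi_le' (p.1 * p.2) N
        exact_mod_cast this
      calc _ ≤ (dd p.1 * dd p.2 / ((p.1 * p.2 : ℕ) : ℝ)) * N :=
            mul_le_mul h3 h5 (abs_nonneg _) (by positivity)
        _ ≤ _ := by rw [mul_comm]; linarith
    · have h5 : |((∑ A ∈ (Icc 1 N).filter Odd, chi A (p.1 * p.2) : ℤ) : ℝ)| ≤
          ((p.1 * p.2 : ℕ) : ℝ) := by
        have := abs_sum_chi_le hn1 hG N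
        exact_mod_cast this
      calc _ ≤ (dd p.1 * dd p.2 / ((p.1 * p.2 : ℕ) : ℝ)) * ((p.1 * p.2 : ℕ) : ℝ) :=
            mul_le_mul h3 h5 (abs_nonneg _) (by positivity)
        _ = dd p.1 * dd p.2 := by field_simp
        _ ≤ _ := by simp
  refine (sum_le_sum h2).trans ?_
  rw [sum_add_distrib, ← mul_sum]
  refine add_le_add ?_ (mul_le_mul_of_nonneg_left (good_sum hY) (Nat.cast_nonneg _))
  rw [sum_product]
  simp only []
  have h6 : ∑ x ∈ Ioc Y Z, ∑ y ∈ Ioc Y Z, dd x * dd y = (∑ x ∈ Ioc Y Z, dd x) ^ 2 := by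
    rw [sq, sum_mul_sum]
  rw [h6]
  exact pow_le_pow_left₀ (sum_nonneg fun l _ => dd_nonneg l) (sum_dd_le Y Z) 2

/-- SM -/
theorem sm : S_SM := by
  refine ⟨65, ⌈Real.exp (10 * 2 ^ 64)⌉₊, fun N Y Z hN hY hYZ hZ b hb => ?_⟩
  have hN' : Real.exp (10 * 2 ^ 64) ≤ N := (Nat.le_ceil _).trans (by exact_mod_cast hN)
  have hlog : 10 * 2 ^ 64 ≤ Real.log N := by
    have := Real.log_le_log (Real.exp_pos _) hN'
    rwa [Real.log_exp] at this
  have hNpos : (0 : ℝ) < N := (Real.exp_pos _).trans_le hN'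
  have hYp : (0 : ℝ) < Y := by exact_mod_cast hY
  have hZ1 : 1 ≤ Z := hY.trans hYZ
  have hZN : Z ≤ N := le_trans (Nat.le_self_pow (by norm_num) Z) hZ
  have hH : HH Z ≤ 2 * Real.log N := by
    have h1 := HH_le Z
    have h2 : Real.log Z ≤ Real.log N :=
      Real.log_le_log (by exact_mod_cast hZ1) (by exact_mod_cast hZN)
    have h3 : (1 : ℝ) ≤ 10 * 2 ^ 64 := by norm_num
    linarith
  have hH0 := HH_nonneg Z
  refine (sm_main N Y Z hY b hb).trans ?_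
  have hL1 : 1 ≤ 2 * Real.log N := by
    have h3 : (1 : ℝ) ≤ 10 * 2 ^ 64 := by norm_num
    linarith
  have h1 : (Z * HH Z ^ 2) ^ 2 ≤ N / Y * (2 * Real.log N) ^ 64 := by
    calc (Z * HH Z ^ 2) ^ 2 = (Z : ℝ) ^ 2 * HH Z ^ 4 := by ring
      _ ≤ N / Y * (2 * Real.log N) ^ 4 := by
          have h2 : (Z : ℝ) ^ 2 ≤ N / Y := by
            rw [le_div_iff₀ hYp]
            have h3 : (Z : ℝ) ^ 2 * Y ≤ Z ^ 2 * Z :=
              mul_le_mul_of_nonneg_left (by exact_mod_cast hYZ) (by positivity)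
            have h4 : (Z : ℝ) ^ 3 ≤ N := by exact_mod_cast hZ
            calc (Z : ℝ) ^ 2 * Y ≤ Z ^ 2 * Z := h3
              _ = (Z : ℝ) ^ 3 := by ring
              _ ≤ N := h4
          gcongr
      _ ≤ N / Y * (2 * Real.log N) ^ 64 := by
          refine mul_le_mul_of_nonneg_left (pow_le_pow_right₀ hL1 (by norm_num)) (by positivity)
  have h2 : (N : ℝ) * (9 / Y * HH Z ^ 64) ≤ 9 * (N / Y * (2 * Real.log N) ^ 64) := by
    calc (N : ℝ) * (9 / Y * HH Z ^ 64) ≤ N * (9 / Y * (2 * Real.log N) ^ 64) := by gcongr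
      _ = _ := by ring
  calc (Z * HH Z ^ 2) ^ 2 + N * (9 / Y * HH Z ^ 64)
      ≤ N / Y * (2 * Real.log N) ^ 64 + 9 * (N / Y * (2 * Real.log N) ^ 64) := add_le_add h1 h2
    _ = (N / Y) * Real.log N ^ 64 * (10 * 2 ^ 64) := by rw [mul_pow]; ring
    _ ≤ (N / Y) * Real.log N ^ 64 * Real.log N := by
        have : 0 ≤ Real.log N := by linarith [show (0 : ℝ) ≤ 10 * 2 ^ 64 by norm_num]
        refine mul_le_mul_of_nonneg_left hlog (by positivity)
    _ = N * Real.log N ^ 65 / Y := by ring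

end Pool.Agent.P8H67.CF
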