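import Pool.Agent.P8H14.CF.Stm
import Pool.Agent.P8H67.CF.SM
import Pool.Agent.P8H67.CF.LG

set_option autoImplicit false

/-!
# Project CF (helper14), package TAIL (helper67)
-/

namespace Pool.Agent.P8H67.CF

open Finset Filter Pool.Agent.P8H14.CF

/-- the coefficients of the product -/
noncomputable def bt (X Y l : ℕ) : ℝ :=
  ∑ p ∈ ((Icc 1 Y) ×ˢ (Icc 1 X)).filter (fun p => p.1 * p.2 = l), ((ArithmeticFunction.moebius p.1 : ℤ) : ℝ)

lemma abs_moebius_le (n : ℕ) : |((ArithmeticFunction.moebius n : ℤ) : ℝ)| ≤ 1 := by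
  have h := ArithmeticFunction.abs_moebius_le_one (n := n)
  exact_mod_cast h

lemma abs_bt_le (X Y l : ℕ) : |bt X Y l| ≤ l.divisors.card := by
  unfold bt
  refine (abs_sum_le_sum_abs _ _).trans ?_
  refine (sum_le_card_nsmul _ _ 1 fun p _ => abs_moebius_le p.1).trans ?_
  rw [nsmul_eq_mul, mul_one]
  have h : (((Icc 1 Y) ×ˢ (Icc 1 X)).filter (fun p => p.1 * p.2 = l)).card ≤ l.divisors.card := by
    refine card_le_card_of_injOn (fun p => p.1) ?_ ?_
    · intro p hp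
      rw [mem_coe, mem_filter, mem_product, mem_Icc, mem_Icc] at hp
      rw [mem_coe, Nat.mem_divisors]
      obtain ⟨⟨⟨h1, h2⟩, h3, h4⟩, h5⟩ := hp
      refine ⟨⟨p.2, h5.symm⟩, ?_⟩
      rw [← h5]
      positivity
    · intro p hp q hq hpq
      rw [mem_coe, mem_filter, mem_product, mem_Icc, mem_Icc] at hp hq
      simp only at hpq
      have h1 : p.1 * p.2 = p.1 * q.2 := by rw [hp.2, hpq, hq.2]
      have h2 : p.2 = q.2 := Nat.eq_of_mul_eq_mul_left (by omega) h1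
      exact Prod.ext hpq h2
  exact_mod_cast h

lemma bt_small {X Y l : ℕ} (hl : 1 ≤ l) (hY : l ≤ Y) (hX : l ≤ X) : bt X Y l = if l = 1 then 1 else 0 := by
  have h1 : ((Icc 1 Y) ×ˢ (Icc 1 X)).filter (fun p => p.1 * p.2 = l) = l.divisorsAntidiagonal := by
    ext p
    rw [mem_filter, mem_product, mem_Icc, mem_Icc, Nat.mem_divisorsAntidiagonal]
    constructor
    · rintro ⟨_, h⟩
      exact ⟨h, by omega⟩
    · rintro ⟨h, h0⟩
      have h5 : 0 < p.1 := Nat.pos_of_ne_zero fun h' => by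
        apply h0; rw [← h, h', zero_mul]
      have h6 : 0 < p.2 := Nat.pos_of_ne_zero fun h' => by
        apply h0; rw [← h, h', mul_zero]
      have h7 : p.1 ≤ p.1 * p.2 := Nat.le_mul_of_pos_right _ h6
      have h8 : p.2 ≤ p.1 * p.2 := Nat.le_mul_of_pos_left _ h5
      refine ⟨⟨⟨h5, by omega⟩, h6, by omega⟩, h⟩
  unfold bt
  rw [h1]
  have h2 : ((ArithmeticFunction.moebius : ArithmeticFunction ℤ) * (ArithmeticFunction.zeta : ArithmeticFunction ℤ)) l =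
      (1 : ArithmeticFunction ℤ) l := by rw [ArithmeticFunction.moebius_mul_coe_zeta]
  rw [ArithmeticFunction.mul_apply, ArithmeticFunction.one_apply] at h2
  have h3 : ∑ p ∈ l.divisorsAntidiagonal, ArithmeticFunction.moebius p.1 = if l = 1 then 1 else 0 := by
    rw [← h2]
    refine sum_congr rfl fun p hp => ?_
    have h4 : p.2 ≠ 0 := fun h' => by
      have := Nat.mem_divisorsAntidiagonal.1 hp
      apply this.2; rw [← this.1, h', mul_zero]
    simp [h4]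
  have h4 := congrArg (fun z : ℤ => (z : ℝ)) h3
  push_cast at h4
  rw [h4]

/-- the product is a sum -/
lemma prod_eq (A X Y : ℕ) :
    (∑ n ∈ Icc 1 X, (chi A n : ℝ) / n) *
        (∑ k ∈ Icc 1 Y, ((ArithmeticFunction.moebius k : ℤ) : ℝ) * chi A k / k) =
      ∑ l ∈ Icc 1 (X * Y), bt X Y l * chi A l / l := by
  rw [mul_comm, sum_mul_sum, ← sum_product']
  rw [← sum_fiberwise_of_maps_to (s := (Icc 1 Y) ×ˢ (Icc 1 X)) (t := Icc 1 (X * Y)) (g := fun p => p.1 * p.2)]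
  · refine sum_congr rfl fun l _ => ?_
    unfold bt
    rw [sum_mul, sum_div]
    refine sum_congr rfl fun p hp => ?_
    rw [mem_filter] at hp
    rw [← hp.2, chi_mul]
    push_cast
    rw [div_mul_div_comm]
    ring
  · intro p hp
    rw [mem_product, mem_Icc, mem_Icc] at hp
    rw [mem_Icc]
    obtain ⟨⟨h1, h2⟩, h3, h4⟩ := hp
    refine ⟨Nat.mul_pos h1 h3, ?_⟩
    rw [mul_comm X Y]
    exact Nat.mul_le_mul h2 h4

lemma prod_sub_one {A X Y : ℕ} (hY : 1 ≤ Y) (hX : Y ≤ X) :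
    (∑ n ∈ Icc 1 X, (chi A n : ℝ) / n) *
        (∑ k ∈ Icc 1 Y, ((ArithmeticFunction.moebius k : ℤ) : ℝ) * chi A k / k) - 1 =
      ∑ l ∈ Ioc Y (X * Y), bt X Y l * chi A l / l := by
  rw [prod_eq]
  have h1 : Icc 1 (X * Y) = Ioc 0 (X * Y) := by
    ext l
    rw [mem_Icc, mem_Ioc]
    omega
  have hXY : Y ≤ X * Y := Nat.le_mul_of_pos_left _ (by omega)
  rw [h1, ← sum_Ioc_consecutive _ (Nat.zero_le Y) hXY]
  have h2 : ∑ l ∈ Ioc 0 Y, bt X Y l * chi A l / l = 1 := by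
    rw [sum_eq_single 1]
    · rw [bt_small le_rfl hY (hY.trans hX)]
      have : chi A 1 = 1 := by simp [chi]
      rw [this]
      simp
    · intro l hl hl1
      rw [mem_Ioc] at hl
      rw [bt_small (by omega) hl.2 (hl.2.trans hX), if_neg hl1]
      simp
    · intro h
      exact absurd (mem_Ioc.2 ⟨by omega, hY⟩) h
  rw [h2]
  ring

/-- dyadic splitting -/
lemma dyadic (f : ℕ → ℝ) (Z X : ℕ) (J : ℕ) :
    ∑ j ∈ range J, ∑ l ∈ Ioc (2 ^ j * Z) (min (2 ^ (j + 1) * Z) X), f l =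
      ∑ l ∈ Ioc Z (min (2 ^ J * Z) X), f l := by
  induction J with
  | zero =>
    simp
  | succ J ih =>
    rw [sum_range_succ, ih]
    have hZ : Z ≤ 2 ^ J * Z := Nat.le_mul_of_pos_left _ (by positivity)
    have h2 : 2 ^ J * Z ≤ 2 ^ (J + 1) * Z := Nat.mul_le_mul_right _ (Nat.pow_le_pow_right (by norm_num) (by omega))
    rcases le_or_gt (2 ^ J * Z) X with h | h
    · rw [min_eq_left h, sum_Ioc_consecutive _ hZ (le_min h2 h)]
    · rw [min_eq_right h.le, min_eq_right (h.le.trans h2), Ioc_eq_empty (a := 2 ^ J * Z) (by omega)]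
      simp

/-- TAIL -/
theorem tail (hS : S_SM) (hL : S_LG) : S_TAIL := by
  intro B
  obtain ⟨K1, N1, hS⟩ := hS
  obtain ⟨N2, hL⟩ := hL (B + 2)
  have hev : ∀ᶠ N : ℕ in atTop, 32 ≤ Real.log N ∧ N1 ≤ N ∧ N2 ≤ N ∧ 1 ≤ N :=
    ((Real.tendsto_log_atTop.comp tendsto_natCast_atTop_atTop).eventually (eventually_ge_atTop 32)).and
      ((eventually_ge_atTop N1).and ((eventually_ge_atTop N2).and (eventually_ge_atTop 1)))
  obtain ⟨N₀, hN₀⟩ := eventually_atTop.1 hev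
  refine ⟨2 * B + K1 + 3, N₀, fun N Y hN hY hYN => ?_⟩
  obtain ⟨hlog, hN1, hN2, hNpos⟩ := hN₀ N hN
  set ℓ : ℝ := Real.log N with hℓ
  have hℓ0 : 0 < ℓ := by linarith
  have hNR : (0 : ℝ) < N := by exact_mod_cast hNpos
  have hYR : (0 : ℝ) < Y := by exact_mod_cast hY
  -- the cube root
  set Z : ℕ := Nat.findGreatest (fun z => z ^ 3 ≤ N) N with hZdef
  have hZ3 : Z ^ 3 ≤ N := by
    have := Nat.findGreatest_spec (P := fun z => z ^ 3 ≤ N) (m := 1) (n := N) hNpos (by simpa using hNpos)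
    exact this
  have hZmax : ∀ z, z ^ 3 ≤ N → z ≤ Z := by
    intro z hz
    refine Nat.le_findGreatest ?_ hz
    rcases Nat.eq_zero_or_pos z with h | h
    · omega
    · exact (Nat.le_self_pow (by norm_num) z).trans hz
  have hZ1 : 1 ≤ Z := hZmax 1 (by simpa using hNpos)
  have hZN : N ≤ 8 * Z ^ 3 := by
    by_contra h
    push Not at h
    have h1 : (Z + 1) ^ 3 ≤ N := by
      have : (Z + 1) ^ 3 ≤ (2 * Z) ^ 3 := Nat.pow_le_pow_left (by omega) 3
      have h2 : (2 * Z) ^ 3 = 8 * Z ^ 3 := by ring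
      omega
    have := hZmax _ h1
    omega
  have hY3 : Y ^ 3 ≤ N := (Nat.pow_le_pow_right hY (by norm_num)).trans hYN
  have hYZ : Y ≤ Z := hZmax _ hY3
  have hYN' : Y ≤ N := (Nat.le_self_pow (by norm_num) Y).trans hYN
  have hYN2 : Y ≤ N ^ 2 := hYN'.trans (Nat.le_self_pow (by norm_num) N)
  set X : ℕ := N ^ 2 * Y with hX
  have hX3 : X ≤ N ^ 3 := by
    have : N ^ 2 * Y ≤ N ^ 2 * N := Nat.mul_le_mul_left _ hYN'
    rw [pow_succ N 2]
    exact this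
  -- the number of dyadic intervals
  set J : ℕ := 3 * (Nat.log 2 N + 1) with hJ
  have hJX : X ≤ 2 ^ J * Z := by
    have h1 : N < 2 ^ (Nat.log 2 N + 1) := Nat.lt_pow_succ_log_self (by norm_num) N
    have h2 : N ^ 3 ≤ (2 ^ (Nat.log 2 N + 1)) ^ 3 := Nat.pow_le_pow_left h1.le 3
    have h3 : (2 ^ (Nat.log 2 N + 1)) ^ 3 = 2 ^ J := by rw [← pow_mul, hJ, mul_comm]
    calc X ≤ N ^ 3 := hX3
      _ ≤ 2 ^ J := by rw [← h3]; exact h2
      _ ≤ 2 ^ J * Z := Nat.le_mul_of_pos_right _ (by omega)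
  have hJl : (J : ℝ) ≤ 8 * ℓ := by
    have h1 : ((Nat.log 2 N : ℕ) : ℝ) * Real.log 2 ≤ ℓ := by
      have h2 : (2 : ℝ) ^ (Nat.log 2 N) ≤ N := by
        exact_mod_cast Nat.pow_log_le_self 2 (by omega)
      have h3 := Real.log_le_log (by positivity) h2
      rwa [Real.log_pow] at h3
    have h2 : (0.6931471803 : ℝ) < Real.log 2 := Real.log_two_gt_d9
    rw [hJ]
    push_cast
    have h3 : ((Nat.log 2 N : ℕ) : ℝ) * 0.69 ≤ ℓ := by
      refine le_trans ?_ h1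
      refine mul_le_mul_of_nonneg_left (by linarith) (Nat.cast_nonneg _)
    nlinarith
  -- the bad sets
  set b : ℕ → ℝ := bt (N ^ 2) Y with hb
  have hbb : ∀ l, |b l| ≤ l.divisors.card := fun l => abs_bt_le _ _ _
  set E1 : Finset ℕ := (Icc 1 N).filter (fun A : ℕ => Odd A ∧
    1 / (2 * ℓ ^ B) < |∑ l ∈ Ioc Y Z, b l * chi A l / l|) with hE1
  set E2 : ℕ → Finset ℕ := fun j => (Icc 1 N).filter (fun A : ℕ => Odd A ∧
    1 / ℓ ^ (B + 2) < |∑ l ∈ Ioc (2 ^ j * Z) (min (2 ^ (j + 1) * Z) X), b l * chi A l / l|) with hE2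
  have hsub : (Icc 1 N).filter (fun A : ℕ => Odd A ∧ 1 / ℓ ^ B <
      |(∑ n ∈ Icc 1 (N ^ 2), (chi A n : ℝ) / n) *
        (∑ k ∈ Icc 1 Y, ((ArithmeticFunction.moebius k : ℤ) : ℝ) * chi A k / k) - 1|) ⊆
      E1 ∪ (range J).biUnion E2 := by
    intro A hA
    rw [mem_filter] at hA
    obtain ⟨hA1, hA2, hA3⟩ := hA
    rw [prod_sub_one hY hYN2] at hA3
    by_contra hcon
    rw [mem_union, mem_biUnion, not_or, hE1, mem_filter] at hcon
    obtain ⟨hc1, hc2⟩ := hcon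
    have hc1' : |∑ l ∈ Ioc Y Z, b l * chi A l / l| ≤ 1 / (2 * ℓ ^ B) := by
      by_contra h
      exact hc1 ⟨hA1, hA2, not_le.1 h⟩
    have hc2' : ∀ j ∈ range J, |∑ l ∈ Ioc (2 ^ j * Z) (min (2 ^ (j + 1) * Z) X), b l * chi A l / l| ≤
        1 / ℓ ^ (B + 2) := by
      intro j hj
      by_contra h
      refine hc2 ⟨j, hj, ?_⟩
      rw [hE2]
      simp only
      rw [mem_filter]
      exact ⟨hA1, hA2, not_le.1 h⟩
    have hZX : Z ≤ X := by
      have h1 : Z ≤ N := Nat.findGreatest_le N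
      have h2 : N ≤ N ^ 2 * Y := by
        calc N ≤ N ^ 2 := Nat.le_self_pow (by norm_num) N
          _ ≤ N ^ 2 * Y := Nat.le_mul_of_pos_right _ (by omega)
      omega
    have hs : ∑ l ∈ Ioc Y (N ^ 2 * Y), b l * chi A l / l = ∑ l ∈ Ioc Y Z, b l * chi A l / l +
        ∑ j ∈ range J, ∑ l ∈ Ioc (2 ^ j * Z) (min (2 ^ (j + 1) * Z) X), b l * chi A l / l := by
      rw [dyadic, min_eq_right hJX, sum_Ioc_consecutive _ hYZ hZX]
    rw [hs] at hA3
    have h1 := (abs_add_le _ _).trans (add_le_add hc1' ((abs_sum_le_sum_abs _ _).trans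
      (sum_le_card_nsmul _ _ _ hc2')))
    rw [card_range, nsmul_eq_mul] at h1
    have h2 : (J : ℝ) * (1 / ℓ ^ (B + 2)) ≤ 1 / (2 * ℓ ^ B) := by
      rw [mul_one_div, div_le_div_iff₀ (by positivity) (by positivity)]
      have h3 : (J : ℝ) * 2 ≤ ℓ ^ 2 := by nlinarith
      have h4 : 0 < ℓ ^ B := by positivity
      calc (J : ℝ) * (2 * ℓ ^ B) = (J * 2) * ℓ ^ B := by ring
        _ ≤ ℓ ^ 2 * ℓ ^ B := mul_le_mul_of_nonneg_right h3 h4.le
        _ = 1 * ℓ ^ (B + 2) := by ring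
    have h5 : 1 / (2 * ℓ ^ B) + 1 / (2 * ℓ ^ B) = 1 / ℓ ^ B := by
      field_simp
      norm_num
    linarith
  have hE1card : ((E1.card : ℕ) : ℝ) ≤ 4 * ℓ ^ (2 * B) * (N * ℓ ^ K1 / Y) := by
    have h1 := hS N Y Z hN1 hY hYZ hZ3 b hbb
    have h2 : ((E1.card : ℕ) : ℝ) * (1 / (2 * ℓ ^ B)) ^ 2 ≤
        ∑ A ∈ (Icc 1 N).filter Odd, (∑ l ∈ Ioc Y Z, b l * chi A l / l) ^ 2 := by
      rw [← nsmul_eq_mul]
      refine (card_nsmul_le_sum E1 (fun A => (∑ l ∈ Ioc Y Z, b l * chi A l / l) ^ 2) _ ?_).trans ?_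
      · intro A hA
        rw [hE1, mem_filter] at hA
        rw [← sq_abs (∑ l ∈ Ioc Y Z, b l * chi A l / l)]
        exact pow_le_pow_left₀ (by positivity) hA.2.2.le 2
      · refine sum_le_sum_of_subset_of_nonneg ?_ fun A _ _ => sq_nonneg _
        intro A hA
        rw [hE1, mem_filter] at hA
        rw [mem_filter]
        exact ⟨hA.1, hA.2.1⟩
    have h3 := h2.trans h1
    have h4 : (1 / (2 * ℓ ^ B)) ^ 2 = 1 / (4 * ℓ ^ (2 * B)) := by
      rw [div_pow, mul_pow, ← pow_mul, mul_comm B 2]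
      norm_num
    rw [h4, mul_one_div, div_le_iff₀ (by positivity)] at h3
    linarith
  have hE2card : ∀ j ∈ range J, (((E2 j).card : ℕ) : ℝ) ≤ N / Y := by
    intro j _
    have h1 := hL N (2 ^ j * Z) (min (2 ^ (j + 1) * Z) X) hN2 ?_ ?_ ?_ b hbb
    · refine h1.trans ?_
      have h2 : (Y : ℝ) ≤ (N : ℝ) ^ (1 / 1000 : ℝ) := by
        have h3 : ((Y : ℝ) ^ 1000) ≤ N := by exact_mod_cast hYN
        have h4 := Real.rpow_le_rpow (by positivity) h3 (show (0 : ℝ) ≤ 1 / 1000 by norm_num)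
        have h5 : ((Y : ℝ) ^ 1000) ^ (1 / 1000 : ℝ) = Y := by
          rw [← Real.rpow_natCast, ← Real.rpow_mul hYR.le]
          norm_num
        rwa [h5] at h4
      rw [Real.rpow_sub hNR, Real.rpow_one]
      exact div_le_div_of_nonneg_left hNR.le hYR h2
    · refine hZN.trans ?_
      refine Nat.mul_le_mul_left _ (Nat.pow_le_pow_left ?_ 3)
      exact Nat.le_mul_of_pos_left _ (by positivity)
    · refine (min_le_left _ _).trans (le_of_eq ?_)
      ring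
    · refine (min_le_right _ _).trans (hX3.trans ?_)
      exact Nat.pow_le_pow_right hNpos (by norm_num)
  have hcard : (((E1 ∪ (range J).biUnion E2).card : ℕ) : ℝ) ≤ 4 * ℓ ^ (2 * B) * (N * ℓ ^ K1 / Y) + J * (N / Y) := by
    have h1 : (E1 ∪ (range J).biUnion E2).card ≤ E1.card + ∑ j ∈ range J, (E2 j).card :=
      (card_union_le _ _).trans (Nat.add_le_add_left card_biUnion_le _)
    have h2 : (((E1 ∪ (range J).biUnion E2).card : ℕ) : ℝ) ≤ E1.card + ∑ j ∈ range J, ((E2 j).card : ℝ) := by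
      exact_mod_cast h1
    refine h2.trans (add_le_add hE1card ?_)
    refine (sum_le_card_nsmul _ _ _ hE2card).trans ?_
    rw [card_range, nsmul_eq_mul]
  have hfin : ((((Icc 1 N).filter (fun A : ℕ => Odd A ∧ 1 / ℓ ^ B <
      |(∑ n ∈ Icc 1 (N ^ 2), (chi A n : ℝ) / n) *
        (∑ k ∈ Icc 1 Y, ((ArithmeticFunction.moebius k : ℤ) : ℝ) * chi A k / k) - 1|)).card : ℕ) : ℝ) ≤
      4 * ℓ ^ (2 * B) * (N * ℓ ^ K1 / Y) + J * (N / Y) := by
    refine le_trans ?_ hcard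
    exact_mod_cast card_le_card hsub
  refine hfin.trans ?_
  have h1 : 4 * ℓ ^ (2 * B) * (N * ℓ ^ K1 / Y) + J * (N / Y) = (4 * ℓ ^ (2 * B + K1) + J) * (N / Y) := by
    rw [pow_add]
    ring
  have h2 : N * ℓ ^ (2 * B + K1 + 3) / Y = ℓ ^ (2 * B + K1 + 3) * (N / Y) := by ring
  rw [h1, h2]
  refine mul_le_mul_of_nonneg_right ?_ (by positivity)
  have h3 : ℓ ^ (2 * B + K1 + 3) = ℓ ^ (2 * B + K1) * ℓ ^ 3 := by rw [pow_add]
  have h4 : (1 : ℝ) ≤ ℓ ^ (2 * B + K1) := one_le_pow₀ (by linarith)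
  rw [h3]
  have h5 : 4 + 8 * ℓ ≤ ℓ ^ 3 := by nlinarith [sq_nonneg ℓ, sq_nonneg (ℓ - 32)]
  nlinarith
end Pool.Agent.P8H67.CF
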