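import Pool.Agent.P8H14.CF.Stm

set_option autoImplicit false

/-!
# Project CF (helper14), packages SM, LG, TAIL (helper67): sums of Jacobi symbols over the modulus
-/

namespace Pool.Agent.P8H67.CF

open Finset Pool.Agent.P8H14.CF

/-! ### A Jacobi symbol equal to `-1` -/

lemma exists_odd_fact {M : ℕ} (hM : M ≠ 0) (hs : ¬ IsSquare M) :
    ∃ p : ℕ, p.Prime ∧ Odd (M.factorization p) := by
  obtain ⟨a, b, hab, hsq⟩ := Nat.sq_mul_squarefree M
  have ha0 : a ≠ 0 := by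
    rintro rfl
    exact hM (by simpa using hab.symm)
  have hb0 : b ≠ 0 := by
    rintro rfl
    exact hM (by simpa using hab.symm)
  have ha1 : a ≠ 1 := by
    rintro rfl
    exact hs ⟨b, by rw [← hab]; ring⟩
  obtain ⟨p, hp, hpa⟩ := Nat.exists_prime_and_dvd ha1
  refine ⟨p, hp, ?_⟩
  have h1 : a.factorization p = 1 := by
    have h2 := hsq.natFactorization_le_one p
    have h3 := hp.factorization_pos_of_dvd ha0 hpa
    omega
  rw [← hab, Nat.factorization_mul (pow_ne_zero 2 hb0) ha0, Nat.factorization_pow]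
  simp only [Finsupp.add_apply, Finsupp.smul_apply, smul_eq_mul, h1]
  exact ⟨b.factorization p, by ring⟩

lemma exists_jac_neg {M : ℕ} (ho : Odd M) (hs : ¬ IsSquare M) :
    ∃ a : ℕ, jacobiSym (a : ℤ) M = -1 := by
  have hM : M ≠ 0 := by
    rintro rfl
    simp at ho
  obtain ⟨p, hp, hv⟩ := exists_odd_fact hM hs
  have : Fact p.Prime := ⟨hp⟩
  have hpM : p ∣ M := by
    by_contra h
    rw [Nat.factorization_eq_zero_of_not_dvd h] at hv
    simp at hv
  have hp2 : p ≠ 2 := by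
    rintro rfl
    exact (Nat.not_even_iff_odd.2 ho) (even_iff_two_dvd.2 hpM)
  obtain ⟨z, hz⟩ := quadraticChar_exists_neg_one (F := ZMod p) (by rwa [ZMod.ringChar_zmod_n])
  set v := M.factorization p with hvdef
  set M' := M / p ^ v with hM'
  have hMe : p ^ v * M' = M := Nat.ordProj_mul_ordCompl_eq_self M p
  have hcop : Nat.Coprime p M' := Nat.coprime_ordCompl hp hM
  obtain ⟨x, hx1, hx2⟩ := Nat.chineseRemainder hcop z.val 1
  refine ⟨x, ?_⟩
  have hM'0 : M' ≠ 0 := by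
    intro h
    rw [h, mul_zero] at hMe
    exact hM hMe.symm
  have : NeZero M' := ⟨hM'0⟩
  have : NeZero (p ^ v) := ⟨pow_ne_zero _ hp.ne_zero⟩
  rw [← hMe, jacobiSym.mul_right, jacobiSym.pow_right]
  have h1 : jacobiSym (x : ℤ) p = -1 := by
    rw [← jacobiSym.legendreSym.to_jacobiSym, legendreSym]
    have h2 : (((x : ℕ) : ℤ) : ZMod p) = z := by
      have := (ZMod.natCast_eq_natCast_iff x z.val p).2 hx1
      rw [Int.cast_natCast, this, ZMod.natCast_zmod_val]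
    rw [h2, hz]
  have h2 : jacobiSym (x : ℤ) M' = 1 := by
    rw [jacobiSym.mod_left' (b := M') (a₂ := 1), jacobiSym.one_left]
    exact_mod_cast hx2
  rw [h1, h2, hv.neg_one_pow, mul_one]

/-! ### Sums over periods -/

lemma abs_sum_le_of_period {f : ℕ → ℤ} {m : ℕ} (hm : 0 < m) (hp : ∀ x, f (m + x) = f x)
    (h0 : ∑ x ∈ range m, f x = 0) (hb : ∀ x, |f x| ≤ 1) (T : ℕ) :
    |∑ x ∈ range T, f x| ≤ m := by
  induction T using Nat.strong_induction_on with
  | _ T ih =>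
    by_cases h : T < m
    · refine (abs_sum_le_sum_abs _ _).trans ?_
      calc ∑ x ∈ range T, |f x| ≤ ∑ x ∈ range T, (1 : ℤ) := sum_le_sum fun x _ => hb x
        _ = T := by simp
        _ ≤ m := by exact_mod_cast h.le
    · push Not at h
      have h1 := ih (T - m) (by omega)
      have h2 : ∑ x ∈ range T, f x = ∑ x ∈ range m, f x + ∑ x ∈ range (T - m), f (m + x) := by
        rw [← sum_range_add f m (T - m), Nat.add_sub_cancel' h]
      rw [h2, h0, zero_add, sum_congr rfl fun x _ => hp x]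
      exact h1

lemma jac_affine_zero {m : ℕ} (ho : Odd m) (hs : ¬ IsSquare m) :
    ∑ x ∈ range m, jacobiSym (-3 - 8 * (x : ℤ)) m = 0 := by
  have hm : m ≠ 0 := by
    rintro rfl
    simp at ho
  have : NeZero m := ⟨hm⟩
  obtain ⟨u, hu⟩ := exists_jac_neg ho hs
  set g : ZMod m → ℤ := fun z => jacobiSym ((z.val : ℕ) : ℤ) m with hg
  have hgc : ∀ a : ℤ, g (a : ZMod m) = jacobiSym a m := by
    intro a
    rw [hg]
    refine jacobiSym.mod_left' ?_
    have h1 : ((((a : ZMod m).val : ℕ) : ℤ) : ZMod m) = (a : ZMod m) := by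
      rw [Int.cast_natCast, ZMod.natCast_zmod_val]
    exact (ZMod.intCast_eq_intCast_iff _ _ m).1 h1
  have hcast : ∀ F : ZMod m → ℤ, ∑ x ∈ range m, F (x : ZMod m) = ∑ z : ZMod m, F z := by
    intro F
    refine sum_bij (fun x _ => (x : ZMod m)) (fun _ _ => mem_univ _) ?_ ?_ fun _ _ => rfl
    · intro a ha b hb hab
      have h1 := congrArg ZMod.val hab
      rwa [ZMod.val_natCast_of_lt (mem_range.1 ha), ZMod.val_natCast_of_lt (mem_range.1 hb)] at h1
    · intro z _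
      exact ⟨z.val, mem_range.2 (ZMod.val_lt z), ZMod.natCast_zmod_val z⟩
  have h1 : ∑ x ∈ range m, jacobiSym (-3 - 8 * (x : ℤ)) m =
      ∑ x ∈ range m, (fun z : ZMod m => g (-3 - 8 * z)) (x : ZMod m) := by
    refine sum_congr rfl fun x _ => ?_
    rw [← hgc]
    simp
  rw [h1, hcast fun z : ZMod m => g (-3 - 8 * z)]
  -- `8` is a unit
  have h8 : IsUnit (8 : ZMod m) := by
    have : Nat.Coprime 8 m := by
      have h2 : Nat.Coprime 2 m := (Nat.coprime_two_left).2 ho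
      exact Nat.Coprime.pow_left 3 h2
    exact_mod_cast (ZMod.isUnit_iff_coprime 8 m).2 this
  obtain ⟨w, hw⟩ := h8
  have h2 : ∑ z : ZMod m, g (-3 - 8 * z) = ∑ z : ZMod m, g z := by
    refine Fintype.sum_bijective (fun z : ZMod m => -3 - 8 * z) ?_ _ _ fun _ => rfl
    refine ⟨fun a b hab => ?_, fun y => ⟨(↑w⁻¹ : ZMod m) * (-3 - y), ?_⟩⟩
    · have h3 : (8 : ZMod m) * a = 8 * b := by
        have : -3 - (8 : ZMod m) * a = -3 - 8 * b := hab
        linear_combination -this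
      rw [← hw] at h3
      exact (Units.mul_right_inj w).1 h3
    · show -3 - (8 : ZMod m) * ((↑w⁻¹ : ZMod m) * (-3 - y)) = y
      rw [← hw, ← mul_assoc, Units.mul_inv, one_mul]
      ring
  rw [h2]
  -- multiplication by `u`
  have hcu : IsUnit (u : ZMod m) := by
    rw [ZMod.isUnit_iff_coprime]
    by_contra hc
    have : jacobiSym (u : ℤ) m = 0 := by
      rw [jacobiSym.eq_zero_iff_not_coprime, Int.gcd_natCast_natCast]
      exact hc
    rw [this] at hu
    norm_num at hu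
  obtain ⟨U, hU⟩ := hcu
  have h3 : ∑ z : ZMod m, g z = ∑ z : ZMod m, g (u * z) := by
    rw [← hU]
    exact (Fintype.sum_bijective (fun z : ZMod m => (U : ZMod m) * z)
      (Units.mulLeft_bijective U) _ _ fun _ => rfl).symm
  have h4 : ∀ z : ZMod m, g (u * z) = -g z := by
    intro z
    have h5 : (u : ZMod m) * z = (((u : ℤ) * (z.val : ℤ) : ℤ) : ZMod m) := by
      push_cast
      rw [ZMod.natCast_zmod_val]
    rw [h5, hgc, jacobiSym.mul_left, hu]
    simp [hg]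
  rw [sum_congr rfl fun z _ => h4 z, sum_neg_distrib] at h3
  omega

/-! ### Reciprocity -/

lemma chi_odd {A l : ℕ} (hA : Odd A) (hl : Odd l) :
    chi A l = jacobiSym (1 - 4 * (A : ℤ)) l := by
  obtain ⟨k, rfl⟩ := hA
  have hD3 : (4 * (2 * k + 1) - 1) % 4 = 3 := by omega
  have hDo : Odd (4 * (2 * k + 1) - 1) := by
    rw [Nat.odd_iff]; omega
  have hcast : ((4 * (2 * k + 1) - 1 : ℕ) : ℤ) = 4 * ((2 * k + 1 : ℕ) : ℤ) - 1 := by
    push_cast [Nat.cast_sub (show 1 ≤ 4 * (2 * k + 1) by omega)]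
    ring
  have hneg : (1 - 4 * ((2 * k + 1 : ℕ) : ℤ)) = (-1) * ((4 * (2 * k + 1) - 1 : ℕ) : ℤ) := by
    rw [hcast]; ring
  rw [hneg, jacobiSym.mul_left, jacobiSym.at_neg_one hl, chi]
  rcases (Nat.odd_mod_four_iff.1 (Nat.odd_iff.1 hl)) with h | h
  · rw [ZMod.χ₄_nat_one_mod_four h, one_mul]
    exact jacobiSym.quadratic_reciprocity_one_mod_four h hDo
  · rw [ZMod.χ₄_nat_three_mod_four h, neg_one_mul]
    exact jacobiSym.quadratic_reciprocity_three_mod_four h hD3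

lemma chi_two {A : ℕ} (hA : Odd A) : chi A 2 = -1 := by
  obtain ⟨k, rfl⟩ := hA
  have hDo : Odd (4 * (2 * k + 1) - 1) := by
    rw [Nat.odd_iff]; omega
  have h8 : (4 * (2 * k + 1) - 1) % 8 = 3 := by omega
  rw [chi]
  have h2 : ((2 : ℕ) : ℤ) = 2 := rfl
  rw [h2, jacobiSym.at_two hDo, ZMod.χ₈_nat_eq_if_mod_eight]
  have h3 : (4 * (2 * k + 1) - 1) % 2 = 1 := by omega
  simp [h3, h8]

lemma chi_mul (A a b : ℕ) : chi A (a * b) = chi A a * chi A b := by
  rw [chi, chi, chi, Nat.cast_mul, jacobiSym.mul_left]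

lemma chi_pow (A a j : ℕ) : chi A (a ^ j) = chi A a ^ j := by
  rw [chi, chi, Nat.cast_pow, jacobiSym.pow_left]

lemma abs_chi_le (A n : ℕ) : |chi A n| ≤ 1 := by
  rw [chi]
  rcases jacobiSym.trichotomy (n : ℤ) (4 * A - 1) with h | h | h <;> rw [h] <;> norm_num

/-- squares and twice squares -/
def Gd (n : ℕ) : Prop := ∃ m : ℕ, n = m ^ 2 ∨ n = 2 * m ^ 2

lemma sum_odd_eq (N : ℕ) (f : ℕ → ℤ) :
    ∑ A ∈ (Icc 1 N).filter Odd, f A = ∑ x ∈ range ((N + 1) / 2), f (2 * x + 1) := by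
  symm
  refine sum_bij (fun x _ => 2 * x + 1) ?_ ?_ ?_ fun _ _ => rfl
  · intro x hx
    rw [mem_range] at hx
    rw [mem_filter, mem_Icc]
    exact ⟨⟨by omega, by omega⟩, ⟨x, rfl⟩⟩
  · intro a _ b _ h
    omega
  · intro A hA
    rw [mem_filter, mem_Icc] at hA
    obtain ⟨⟨h1, h2⟩, k, hk⟩ := hA
    exact ⟨k, mem_range.2 (by omega), by omega⟩

/-- the sum over the moduli -/
theorem abs_sum_chi_le {n : ℕ} (hn : 1 ≤ n) (hG : ¬ Gd n) (N : ℕ) :
    |∑ A ∈ (Icc 1 N).filter Odd, chi A n| ≤ n := by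
  obtain ⟨j, l, hl, hnl⟩ := Nat.exists_eq_two_pow_mul_odd (show n ≠ 0 by omega)
  have hls : ¬ IsSquare l := by
    rintro ⟨s, hs⟩
    apply hG
    rcases Nat.even_or_odd' j with ⟨i, hi | hi⟩
    · exact ⟨2 ^ i * s, Or.inl (by rw [hnl, hs, hi]; ring)⟩
    · exact ⟨2 ^ i * s, Or.inr (by rw [hnl, hs, hi]; ring)⟩
  have hl0 : 0 < l := hl.pos
  rw [sum_odd_eq]
  have h1 : ∀ x : ℕ, chi (2 * x + 1) n = (-1) ^ j * jacobiSym (-3 - 8 * (x : ℤ)) l := by
    intro x
    rw [hnl, chi_mul, chi_pow, chi_two ⟨x, rfl⟩, chi_odd ⟨x, rfl⟩ hl]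
    congr 2
    push_cast
    ring
  rw [sum_congr rfl fun x _ => h1 x, ← mul_sum, abs_mul]
  have h2 : |(-1 : ℤ) ^ j| = 1 := by rw [abs_pow]; simp
  rw [h2, one_mul]
  have h3 := abs_sum_le_of_period (f := fun x => jacobiSym (-3 - 8 * (x : ℤ)) l) hl0
    (fun x => jacobiSym.mod_left' (by
        refine Int.emod_eq_emod_iff_emod_sub_eq_zero.2 ?_
        push_cast
        rw [show (-3 - 8 * ((l : ℤ) + x) - (-3 - 8 * (x : ℤ))) = (l : ℤ) * (-8) by ring]
        exact Int.mul_emod_right _ _)) (jac_affine_zero hl hls)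
    (fun x => by
      rcases jacobiSym.trichotomy (-3 - 8 * (x : ℤ)) l with h | h | h <;> rw [h] <;> norm_num)
    ((N + 1) / 2)
  refine h3.trans ?_
  have : l ≤ n := by
    rw [hnl]
    exact Nat.le_mul_of_pos_left _ (by positivity)
  exact_mod_cast this

lemma abs_sum_chi_le' (n N : ℕ) : |∑ A ∈ (Icc 1 N).filter Odd, chi A n| ≤ N := by
  refine (abs_sum_le_sum_abs _ _).trans ?_
  calc ∑ A ∈ (Icc 1 N).filter Odd, |chi A n| ≤ ∑ A ∈ (Icc 1 N).filter Odd, (1 : ℤ) :=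
        sum_le_sum fun A _ => abs_chi_le A n
    _ = ((Icc 1 N).filter Odd).card := by simp
    _ ≤ (Icc 1 N).card := by exact_mod_cast card_filter_le _ _
    _ = N := by simp

end Pool.Agent.P8H67.CF
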