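import Pool.Agent.P8H67.CF.Jac
import Pool.Agent.P8H67.CF.Dv
import Pool.Agent.Helper112.MultLS

set_option autoImplicit false

/-!
# Project CF (helper14), package LG (helper67): the large sieve for Jacobi symbols
-/

namespace Pool.Agent.P8H67.CF

open Finset Pool.Agent.P8H14.CF

/-- the Jacobi symbol modulo `M` as a Dirichlet character -/
noncomputable def jc (M : ℕ) [NeZero M] : DirichletCharacter ℂ M where
  toFun a := ((jacobiSym (a.val : ℤ) M : ℤ) : ℂ)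
  map_one' := by
    have h : ((1 : ZMod M).val : ℤ) = (1 % M : ℕ) := by
      rw [ZMod.val_one_eq_one_mod]
    rw [h]
    push_cast
    rw [← jacobiSym.mod_left, jacobiSym.one_left]
    norm_num
  map_mul' a b := by
    rw [ZMod.val_mul]
    push_cast
    rw [← jacobiSym.mod_left, jacobiSym.mul_left]
    push_cast
    rfl
  map_nonunit' a ha := by
    have h1 : jacobiSym (a.val : ℤ) M = 0 := by
      rw [jacobiSym.eq_zero_iff_not_coprime]
      intro h
      apply ha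
      have h2 : Nat.Coprime a.val M := by
        rw [Nat.Coprime]
        have := h
        rwa [Int.gcd_natCast_natCast] at this
      have h3 := (ZMod.isUnit_iff_coprime a.val M).mpr h2
      rwa [ZMod.natCast_zmod_val] at h3
    rw [h1]
    norm_num

lemma jc_apply (M : ℕ) [NeZero M] (n : ℕ) :
    jc M (n : ZMod M) = ((jacobiSym (n : ℤ) M : ℤ) : ℂ) := by
  have : jc M (n : ZMod M) = ((jacobiSym (((n : ZMod M).val : ℕ) : ℤ) M : ℤ) : ℂ) := rfl
  rw [this, ZMod.val_natCast]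
  push_cast
  rw [← jacobiSym.mod_left]

/-- primitivity -/
lemma jc_prim {M : ℕ} [NeZero M] (hsq : Squarefree M) (ho : Odd M) : (jc M).IsPrimitive := by
  rw [DirichletCharacter.IsPrimitive]
  by_contra hne
  have hM0 : M ≠ 0 := NeZero.ne M
  have hcd := (jc M).conductor_dvd_level
  obtain ⟨e, he⟩ := hcd
  have he1 : e ≠ 1 := by
    rintro rfl
    rw [mul_one] at he
    exact hne he.symm
  obtain ⟨p, hp, hpe⟩ := Nat.exists_prime_and_dvd he1
  have : Fact p.Prime := ⟨hp⟩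
  obtain ⟨e', he'⟩ := hpe
  set d := (jc M).conductor with hd
  have hMe : p * (d * e') = M := by rw [he, he']; ring
  have hM'0 : d * e' ≠ 0 := by
    intro h
    rw [h, mul_zero] at hMe
    exact hM0 hMe.symm
  have hcop : Nat.Coprime p (d * e') := by
    rw [← hMe] at hsq
    exact (Nat.squarefree_mul_iff.1 hsq).1
  have hp2 : p ≠ 2 := by
    rintro rfl
    exact (Nat.not_even_iff_odd.2 ho) (even_iff_two_dvd.2 ⟨d * e', hMe.symm⟩)
  obtain ⟨z, hz⟩ := quadraticChar_exists_neg_one (F := ZMod p) (by rwa [ZMod.ringChar_zmod_n])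
  obtain ⟨x, hx1, hx2⟩ := Nat.chineseRemainder hcop z.val 1
  have : NeZero (d * e') := ⟨hM'0⟩
  have h1 : jacobiSym (x : ℤ) p = -1 := by
    rw [← jacobiSym.legendreSym.to_jacobiSym, legendreSym]
    have h2 : (((x : ℕ) : ℤ) : ZMod p) = z := by
      have := (ZMod.natCast_eq_natCast_iff x z.val p).2 hx1
      rw [Int.cast_natCast, this, ZMod.natCast_zmod_val]
    rw [h2, hz]
  have h2 : jacobiSym (x : ℤ) (d * e') = 1 := by
    rw [jacobiSym.mod_left' (b := d * e') (a₂ := 1), jacobiSym.one_left]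
    exact_mod_cast hx2
  have h3 : jacobiSym (x : ℤ) M = -1 := by
    rw [← hMe, jacobiSym.mul_right, h1, h2]
    norm_num
  have hxM : IsCoprime (x : ℤ) (M : ℤ) := by
    rw [Int.isCoprime_iff_gcd_eq_one]
    by_contra hc
    rw [jacobiSym.eq_zero_iff_not_coprime.2 hc] at h3
    norm_num at h3
  have h4 := (jc M).primitiveCharacter_apply_of_isCoprime hxM
  have hd0 : d ≠ 0 := (jc M).conductor_ne_zero
  have h5 : ((x : ℤ) : ZMod (jc M).conductor) = 1 := by
    have h6 : x ≡ 1 [MOD (jc M).conductor] := hx2.of_dvd ⟨e', rfl⟩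
    have := (ZMod.natCast_eq_natCast_iff x 1 (jc M).conductor).2 h6
    rw [Int.cast_natCast, this, Nat.cast_one]
  rw [h5, map_one] at h4
  have h6 : jc M ((x : ℤ) : ZMod M) = -1 := by
    rw [Int.cast_natCast, jc_apply, h3]
    norm_num
  rw [h6] at h4
  norm_num at h4

/-- the large sieve for the Jacobi symbols of odd squarefree moduli -/
theorem ls_jac (N F : ℕ) (α : ℕ → ℂ) (T : Finset ℕ) (hT : T ⊆ Icc 1 F)
    (hT2 : ∀ D ∈ T, Squarefree D ∧ Odd D) :
    ∑ D ∈ T, ‖∑ n ∈ Icc 1 N, α n * ((jacobiSym (n : ℤ) D : ℤ) : ℂ)‖ ^ 2 ≤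
      6 * (N + (F : ℝ) ^ 2) * ∑ n ∈ Icc 1 N, ‖α n‖ ^ 2 := by
  classical
  refine le_trans ?_ (Pool.Agent.Helper112.mult_large_sieve N F α)
  refine le_trans ?_ (sum_le_sum_of_subset_of_nonneg hT fun i _ _ =>
    mul_nonneg (by positivity) (sum_nonneg fun _ _ => by positivity))
  refine sum_le_sum fun D hD => ?_
  have hD1 := mem_Icc.1 (hT hD)
  have : NeZero D := ⟨by omega⟩
  have h1 : ‖∑ n ∈ Icc 1 N, α n * ((jacobiSym (n : ℤ) D : ℤ) : ℂ)‖ ^ 2 ≤
      ∑ χ ∈ (univ : Finset (DirichletCharacter ℂ D)).filter (fun χ => χ.IsPrimitive),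
        ‖∑ n ∈ Icc 1 N, α n * χ (n : ZMod D)‖ ^ 2 := by
    have h2 : jc D ∈ (univ : Finset (DirichletCharacter ℂ D)).filter (fun χ => χ.IsPrimitive) :=
      mem_filter.2 ⟨mem_univ _, jc_prim (hT2 D hD).1 (hT2 D hD).2⟩
    refine le_trans (le_of_eq ?_) (single_le_sum (f := fun χ : DirichletCharacter ℂ D =>
      ‖∑ n ∈ Icc 1 N, α n * χ (n : ZMod D)‖ ^ 2) (fun _ _ => by positivity) h2)
    simp only [jc_apply]
  refine h1.trans (le_mul_of_one_le_left (sum_nonneg fun _ _ => by positivity) ?_)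
  have h2 : 0 < Nat.totient D := Nat.totient_pos.2 (by omega)
  rw [le_div_iff₀ (by exact_mod_cast h2), one_mul]
  exact_mod_cast Nat.totient_le D

/-! ### Dirichlet convolution -/

/-- convolution -/
noncomputable def cv (u v : ℕ → ℂ) (n : ℕ) : ℂ := ∑ p ∈ n.divisorsAntidiagonal, u p.1 * v p.2

lemma cv_sum {u v : ℕ → ℂ} {M M' : ℕ} (hu : ∀ n, M < n → u n = 0) (hv : ∀ n, M' < n → v n = 0)
    (χ : ℕ → ℂ) (hχ : ∀ a b, χ (a * b) = χ a * χ b) :
    (∑ n ∈ Icc 1 M, u n * χ n) * (∑ n ∈ Icc 1 M', v n * χ n) =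
      ∑ n ∈ Icc 1 (M * M'), cv u v n * χ n := by
  rw [sum_mul_sum, ← sum_product']
  have h1 : ∑ n ∈ Icc 1 (M * M'), cv u v n * χ n =
      ∑ s ∈ (Icc 1 (M * M')).sigma fun n => n.divisorsAntidiagonal,
        u s.2.1 * χ s.2.1 * (v s.2.2 * χ s.2.2) := by
    rw [sum_sigma]
    refine sum_congr rfl fun n _ => ?_
    rw [cv, sum_mul]
    refine sum_congr rfl fun p hp => ?_
    have := (Nat.mem_divisorsAntidiagonal.1 hp).1
    rw [← this, hχ]
    ring
  rw [h1]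
  symm
  refine sum_bij_ne_zero (fun s _ _ => s.2) ?_ ?_ ?_ ?_
  · rintro ⟨n, p⟩ hs hne
    rw [mem_sigma, mem_Icc] at hs
    have h2 := Nat.mem_divisorsAntidiagonal.1 hs.2
    simp only at h2 hne ⊢
    have hp1 : 0 < p.1 := Nat.pos_of_ne_zero fun h => by apply h2.2; rw [← h2.1, h, zero_mul]
    have hp2 : 0 < p.2 := Nat.pos_of_ne_zero fun h => by apply h2.2; rw [← h2.1, h, mul_zero]
    rw [mem_product, mem_Icc, mem_Icc]
    refine ⟨⟨hp1, ?_⟩, ⟨hp2, ?_⟩⟩
    · by_contra hc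
      push Not at hc
      exact hne (by rw [hu _ hc]; ring)
    · by_contra hc
      push Not at hc
      exact hne (by rw [hv _ hc]; ring)
  · rintro ⟨n, p⟩ hs _ ⟨n', p'⟩ hs' _ h
    simp only at h
    subst h
    rw [mem_sigma] at hs hs'
    have h1 := (Nat.mem_divisorsAntidiagonal.1 hs.2).1
    have h2 := (Nat.mem_divisorsAntidiagonal.1 hs'.2).1
    simp only at h1 h2
    rw [← h1, ← h2]
  · rintro p hp hne
    rw [mem_product, mem_Icc, mem_Icc] at hp
    refine ⟨⟨p.1 * p.2, p⟩, ?_, ?_, rfl⟩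
    · rw [mem_sigma, mem_Icc]
      have h3 : 0 < p.1 * p.2 := Nat.mul_pos hp.1.1 hp.2.1
      exact ⟨⟨h3, Nat.mul_le_mul hp.1.2 hp.2.2⟩, Nat.mem_divisorsAntidiagonal.2 ⟨rfl, h3.ne'⟩⟩
    · exact hne
  · intro s _ _
    rfl

lemma cv_bound {u : ℕ → ℂ} {k : ℕ} (hu : ∀ n, 1 ≤ n → ‖u n‖ ≤ dd n ^ k / n) {n : ℕ} (hn : 1 ≤ n) :
    ‖cv u u n‖ ≤ dd n ^ (2 * k + 1) / n := by
  have hn0 : n ≠ 0 := by omega
  calc ‖cv u u n‖ ≤ ∑ p ∈ n.divisorsAntidiagonal, ‖u p.1 * u p.2‖ := norm_sum_le _ _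
    _ ≤ ∑ p ∈ n.divisorsAntidiagonal, dd n ^ (2 * k) / n := by
        refine sum_le_sum fun p hp => ?_
        have h2 := Nat.mem_divisorsAntidiagonal.1 hp
        have hp1 : 0 < p.1 := Nat.pos_of_ne_zero fun h => by apply h2.2; rw [← h2.1, h, zero_mul]
        have hp2 : 0 < p.2 := Nat.pos_of_ne_zero fun h => by apply h2.2; rw [← h2.1, h, mul_zero]
        have h3 : dd p.1 ≤ dd n := dd_le_of_dvd hn0 ⟨p.2, h2.1.symm⟩
        have h4 : dd p.2 ≤ dd n := dd_le_of_dvd hn0 ⟨p.1, by rw [mul_comm]; exact h2.1.symm⟩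
        have h5 := dd_nonneg p.1
        have h6 := dd_nonneg p.2
        have h7 := dd_nonneg n
        rw [norm_mul]
        calc ‖u p.1‖ * ‖u p.2‖ ≤ (dd p.1 ^ k / p.1) * (dd p.2 ^ k / p.2) :=
              mul_le_mul (hu _ hp1) (hu _ hp2) (norm_nonneg _) (by positivity)
          _ = dd p.1 ^ k * dd p.2 ^ k / ((p.1 * p.2 : ℕ) : ℝ) := by
              push_cast; rw [div_mul_div_comm]
          _ ≤ dd n ^ k * dd n ^ k / n := by
              rw [h2.1]
              gcongr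
          _ = dd n ^ (2 * k) / n := by rw [← pow_add, two_mul]
    _ = dd n * (dd n ^ (2 * k) / n) := by
        rw [sum_const, nsmul_eq_mul, ← Nat.map_div_right_divisors, card_map]
        rfl
    _ = dd n ^ (2 * k + 1) / n := by rw [pow_succ]; ring

lemma cv_low {u : ℕ → ℂ} {X : ℕ} (hu : ∀ n, n ≤ X → u n = 0) {n : ℕ} (hn : n ≤ X ^ 2) :
    cv u u n = 0 := by
  refine sum_eq_zero fun p hp => ?_
  have h2 := Nat.mem_divisorsAntidiagonal.1 hp
  by_cases h : p.1 ≤ X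
  · rw [hu _ h, zero_mul]
  · by_cases h' : p.2 ≤ X
    · rw [hu _ h', mul_zero]
    · exfalso
      push Not at h h'
      have : X * X < p.1 * p.2 := Nat.mul_lt_mul'' h h'
      rw [h2.1] at this
      nlinarith

lemma cv_high {u : ℕ → ℂ} {M : ℕ} (hu : ∀ n, M < n → u n = 0) {n : ℕ} (hn : M * M < n) :
    cv u u n = 0 := by
  refine sum_eq_zero fun p hp => ?_
  have h2 := Nat.mem_divisorsAntidiagonal.1 hp
  by_cases h : M < p.1
  · rw [hu _ h, zero_mul]
  · by_cases h' : M < p.2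
    · rw [hu _ h', mul_zero]
    · exfalso
      push Not at h h'
      have : p.1 * p.2 ≤ M * M := Nat.mul_le_mul h h'
      omega

/-- eighth moments of sums over dyadic intervals -/
theorem eighth {L M F : ℕ} (hL : 1 ≤ L) (a : ℕ → ℂ) (hlow : ∀ n, n ≤ L → a n = 0)
    (hhigh : ∀ n, M < n → a n = 0) (ha : ∀ n, 1 ≤ n → ‖a n‖ ≤ dd n ^ 1 / n)
    (T : Finset ℕ) (hT : T ⊆ Icc 1 F) (hT2 : ∀ D ∈ T, Squarefree D ∧ Odd D) :
    ∑ D ∈ T, ‖∑ n ∈ Icc 1 M, a n * ((jacobiSym (n : ℤ) D : ℤ) : ℂ)‖ ^ 8 ≤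
      6 * ((M : ℝ) ^ 4 + (F : ℝ) ^ 2) * ((1 / (L : ℝ) ^ 4) * HH (M ^ 4) ^ (2 ^ 14)) := by
  have h1 : ∀ D : ℕ, ‖∑ n ∈ Icc 1 M, a n * ((jacobiSym (n : ℤ) D : ℤ) : ℂ)‖ ^ 8 =
      ‖∑ n ∈ Icc 1 (M * M * (M * M)), cv (cv a a) (cv a a) n * ((jacobiSym (n : ℤ) D : ℤ) : ℂ)‖ ^ 2 := by
    intro D
    have hm : ∀ x y : ℕ, ((jacobiSym ((x * y : ℕ) : ℤ) D : ℤ) : ℂ) =
        ((jacobiSym (x : ℤ) D : ℤ) : ℂ) * ((jacobiSym (y : ℤ) D : ℤ) : ℂ) := by
      intro x y
      rw [Nat.cast_mul, jacobiSym.mul_left]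
      push_cast
      rfl
    rw [← cv_sum (fun n hn => cv_high hhigh hn) (fun n hn => cv_high hhigh hn)
      (fun n => ((jacobiSym (n : ℤ) D : ℤ) : ℂ)) hm,
      ← cv_sum hhigh hhigh (fun n => ((jacobiSym (n : ℤ) D : ℤ) : ℂ)) hm, norm_mul, norm_mul]
    ring
  rw [sum_congr rfl fun D _ => h1 D]
  refine (ls_jac _ F _ T hT hT2).trans ?_
  have hLp : (0 : ℝ) < (L : ℝ) ^ 4 := by
    have : (0 : ℝ) < L := by exact_mod_cast hL
    positivity
  have h2 : ∑ n ∈ Icc 1 (M * M * (M * M)), ‖cv (cv a a) (cv a a) n‖ ^ 2 ≤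
      (1 / (L : ℝ) ^ 4) * HH (M ^ 4) ^ (2 ^ 14) := by
    have h3 : M * M * (M * M) = M ^ 4 := by ring
    rw [h3]
    calc ∑ n ∈ Icc 1 (M ^ 4), ‖cv (cv a a) (cv a a) n‖ ^ 2
        ≤ ∑ n ∈ Icc 1 (M ^ 4), (1 / (L : ℝ) ^ 4) * (dd n ^ 14 / n) := by
          refine sum_le_sum fun n hn => ?_
          rw [mem_Icc] at hn
          have hnp : (0 : ℝ) < n := by exact_mod_cast hn.1
          have hdn := dd_nonneg n
          by_cases h4 : n ≤ (L ^ 2) ^ 2
          · rw [cv_low (fun m hm => cv_low hlow hm) h4]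
            have h5 : 0 ≤ (1 / (L : ℝ) ^ 4) * (dd n ^ 14 / n) := by positivity
            simpa using h5
          · push Not at h4
            have h5 := cv_bound (fun m hm => cv_bound ha hm) hn.1
            have h6 : (L : ℝ) ^ 4 ≤ n := by
              have : L ^ 4 ≤ n := by
                calc L ^ 4 = (L ^ 2) ^ 2 := by ring
                  _ ≤ n := h4.le
              exact_mod_cast this
            calc ‖cv (cv a a) (cv a a) n‖ ^ 2 ≤ (dd n ^ (2 * (2 * 1 + 1) + 1) / n) ^ 2 := by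
                  gcongr
              _ = 1 / n * (dd n ^ 14 / n) := by
                  field_simp
                  ring
              _ ≤ (1 / (L : ℝ) ^ 4) * (dd n ^ 14 / n) := by gcongr
      _ ≤ _ := by
          rw [← mul_sum]
          exact mul_le_mul_of_nonneg_left (moment_le _ 14) (by positivity)
  have h3 : (((M * M * (M * M) : ℕ)) : ℝ) = (M : ℝ) ^ 4 := by push_cast; ring
  rw [h3]
  exact mul_le_mul_of_nonneg_left h2 (by positivity)

end Pool.Agent.P8H67.CF
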